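import Pool.Agent.R52.SteffenDefs

/-!
# Steffen's bound: graphs attaining it without the ring subgraph
-/

set_option autoImplicit false

namespace Pool.Agent.R52.SteffenEx

open Pool.Agent.Results.MP_633d19_co.SmallDegree
open Pool.Agent.Results.MP_633d19_co.SmallDegree.MGraph
open Pool.Agent.R52.SteffenDefs

/-- The complete graph on five vertices, every edge replaced by `μ` parallel edges. -/
def five (μ : ℕ) : MGraph (Fin 5) ({p : Fin 5 × Fin 5 // p.1 < p.2} × Fin μ) where
  ends x := s(x.1.1.1, x.1.1.2)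
  loopless x h := by
    rw [Sym2.mk_isDiag_iff] at h
    exact absurd h x.1.2.ne

theorem five_ends (μ : ℕ) (x : {p : Fin 5 × Fin 5 // p.1 < p.2} × Fin μ) :
    (five μ).ends x = s(x.1.1.1, x.1.1.2) := rfl

theorem five_mult (μ : ℕ) (u w : Fin 5) (h : u ≠ w) : (five μ).mult u w = μ := by
  unfold mult
  have key : ∃ p : {p : Fin 5 × Fin 5 // p.1 < p.2}, ∀ q : {p : Fin 5 × Fin 5 // p.1 < p.2},
      s(q.1.1, q.1.2) = s(u, w) ↔ q = p := by
    rcases lt_or_gt_of_ne h with h1 | h1
    · refine ⟨⟨(u, w), h1⟩, fun q => ?_⟩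
      constructor
      · intro h2
        rw [Sym2.eq_iff] at h2
        rcases h2 with ⟨h3, h4⟩ | ⟨h3, h4⟩
        · exact Subtype.ext (Prod.ext h3 h4)
        · exfalso
          have := q.2
          rw [h3, h4] at this
          exact absurd h1 (not_lt.mpr this.le)
      · rintro rfl; rfl
    · refine ⟨⟨(w, u), h1⟩, fun q => ?_⟩
      constructor
      · intro h2
        rw [Sym2.eq_iff] at h2
        rcases h2 with ⟨h3, h4⟩ | ⟨h3, h4⟩
        · exfalso
          have := q.2
          rw [h3, h4] at this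
          exact absurd h1 (not_lt.mpr this.le)
        · exact Subtype.ext (Prod.ext h3 h4)
      · rintro rfl; exact Sym2.eq_swap
  obtain ⟨p, hp⟩ := key
  have e : {x // (five μ).ends x = s(u, w)} ≃ Fin μ :=
    { toFun := fun x => x.1.2
      invFun := fun a => ⟨(p, a), (hp p).2 rfl⟩
      left_inv := by
        rintro ⟨⟨q, a⟩, hq⟩
        have : q = p := (hp q).1 hq
        subst this
        rfl
      right_inv := fun a => rfl }
  rw [Nat.card_congr e, Nat.card_fin]

theorem five_degree (μ : ℕ) (v : Fin 5) : (five μ).degree v = 4 * μ := by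
  unfold degree
  have e : {x // v ∈ (five μ).ends x} ≃
      {q : {p : Fin 5 × Fin 5 // p.1 < p.2} // v = q.1.1 ∨ v = q.1.2} × Fin μ :=
    { toFun := fun x => (⟨x.1.1, Sym2.mem_iff.1 x.2⟩, x.1.2)
      invFun := fun y => ⟨(y.1.1, y.2), Sym2.mem_iff.2 y.1.2⟩
      left_inv := fun x => rfl
      right_inv := fun y => rfl }
  have h4 : ∀ v : Fin 5,
      Fintype.card {q : {p : Fin 5 × Fin 5 // p.1 < p.2} // v = q.1.1 ∨ v = q.1.2} = 4 := by
    decide
  rw [Nat.card_congr e, Nat.card_prod, Nat.card_eq_fintype_card, h4, Nat.card_fin]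

theorem five_chrom (μ : ℕ) : (five μ).HasChromaticIndex (5 * μ) := by
  constructor
  · refine ⟨fun x => ⟨(x.1.1.1 + x.1.1.2 : Fin 5).val * μ + x.2.val, ?_⟩, ?_⟩
    · have h1 := (x.1.1.1 + x.1.1.2 : Fin 5).isLt
      have h2 := x.2.isLt
      calc (x.1.1.1 + x.1.1.2 : Fin 5).val * μ + x.2.val
          < (x.1.1.1 + x.1.1.2 : Fin 5).val * μ + μ := by omega
        _ = ((x.1.1.1 + x.1.1.2 : Fin 5).val + 1) * μ := by ring
        _ ≤ 5 * μ := Nat.mul_le_mul_right _ (by omega)
    · rintro ⟨p, a⟩ ⟨q, b⟩ hne ⟨v, hv, hw⟩ h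
      apply hne
      rw [Fin.mk.injEq] at h
      dsimp only at h
      have ha := a.isLt
      have hb := b.isLt
      have h1 : a.val = b.val := by
        have := congrArg (fun n => n % μ) h
        simpa [Nat.mul_add_mod_self_right, Nat.mod_eq_of_lt ha, Nat.mod_eq_of_lt hb] using this
      have h2 : (p.1.1 + p.1.2 : Fin 5).val = (q.1.1 + q.1.2 : Fin 5).val := by
        rw [h1] at h
        have h3 : (p.1.1 + p.1.2 : Fin 5).val * μ = (q.1.1 + q.1.2 : Fin 5).val * μ := by omega
        exact Nat.eq_of_mul_eq_mul_right (by omega) h3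
      have key : ∀ p q : {p : Fin 5 × Fin 5 // p.1 < p.2}, ∀ v : Fin 5,
          (v = p.1.1 ∨ v = p.1.2) → (v = q.1.1 ∨ v = q.1.2) →
          (p.1.1 + p.1.2 : Fin 5).val = (q.1.1 + q.1.2 : Fin 5).val → p = q := by decide
      have h5 := key p q v (Sym2.mem_iff.1 hv) (Sym2.mem_iff.1 hw) h2
      rw [h5, Fin.ext h1]
  · intro k hk
    have h1 := (five μ).overfull hk (p := 2) (by simp)
    have h2 : Nat.card ({p : Fin 5 × Fin 5 // p.1 < p.2} × Fin μ) = 10 * μ := by
      have : Fintype.card {p : Fin 5 × Fin 5 // p.1 < p.2} = 10 := by decide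
      rw [Nat.card_prod, Nat.card_eq_fintype_card, this, Nat.card_fin]
    rw [h2] at h1
    omega

theorem five_cycle {μ : ℕ} (hμ : 1 ≤ μ) : (five μ).HasCycle 3 := by
  refine ⟨fun i => Fin.ofNat 5 i, ?_, ?_⟩
  · intro i hi j hj
    interval_cases i <;> interval_cases j <;> decide
  · intro i hi
    interval_cases i
    · exact ⟨(⟨(0, 1), by decide⟩, ⟨0, hμ⟩), rfl⟩
    · exact ⟨(⟨(1, 2), by decide⟩, ⟨0, hμ⟩), rfl⟩
    · exact ⟨(⟨(0, 2), by decide⟩, ⟨0, hμ⟩), Sym2.eq_swap⟩

/-- A ring graph of order three in a graph with multiplicities at most `μ` has at most `3 μ`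
edges, so it can be coloured with `3 μ` colours. -/
theorem ring_three {W F V E : Type} [Finite E] {R : MGraph W F} {G : MGraph V E} {μ : ℕ}
    (hR : IsRing R 3) (hRG : IsSub R G) (hmul : ∀ u w, u ≠ w → G.mult u w ≤ μ) :
    R.Colorable (3 * μ) := by
  classical
  obtain ⟨-, v, hv⟩ := hR
  obtain ⟨φ, ψ, hφ, hψ, hends⟩ := hRG
  have hF : Finite F := Finite.of_injective ψ hψ
  have := Fintype.ofFinite F
  have := Fintype.ofFinite E
  have hcard : Fintype.card F ≤ 3 * μ := by
    have h1 : (Finset.univ : Finset F) ⊆ (Finset.univ : Finset (Fin 3)).biUnion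
        (fun i => Finset.univ.filter (fun e : F => R.ends e = s(v i, v (i + 1)))) := by
      intro e _
      rw [Finset.mem_biUnion]
      obtain ⟨x, y, hxy, he⟩ := R.exists_ends e
      obtain ⟨i, rfl⟩ := v.surjective x
      obtain ⟨j, rfl⟩ := v.surjective y
      have h2 := (hv i j).1 ⟨e, he⟩
      rcases h2 with h2 | h2
      · refine ⟨i, Finset.mem_univ _, Finset.mem_filter.2 ⟨Finset.mem_univ _, ?_⟩⟩
        have : j = i + 1 := by
          apply Fin.ext
          rw [h2, Fin.val_add]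
          rfl
        rw [he, this]
      · refine ⟨j, Finset.mem_univ _, Finset.mem_filter.2 ⟨Finset.mem_univ _, ?_⟩⟩
        have : i = j + 1 := by
          apply Fin.ext
          rw [h2, Fin.val_add]
          rfl
        rw [he, this, Sym2.eq_swap]
    have h3 : ∀ i : Fin 3,
        (Finset.univ.filter (fun e : F => R.ends e = s(v i, v (i + 1)))).card ≤ μ := by
      intro i
      have h4 : φ (v i) ≠ φ (v (i + 1)) := by
        intro h
        have h0 := v.injective (hφ h)
        have key : ∀ i : Fin 3, i ≠ i + 1 := by decide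
        exact key i h0
      have h5 := hmul _ _ h4
      unfold mult at h5
      rw [Nat.card_eq_fintype_card, Fintype.card_subtype] at h5
      refine le_trans ?_ h5
      apply Finset.card_le_card_of_injOn ψ
      · intro e he
        have he' := (Finset.mem_filter.1 he).2
        simp only [Finset.coe_filter, Finset.mem_univ, true_and, Set.mem_ofPred_eq]
        rw [hends, he', Sym2.map_mk]
      · exact fun a _ b _ h => hψ h
    have h6 := (Finset.card_le_card h1).trans Finset.card_biUnion_le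
    rw [Finset.card_univ] at h6
    refine h6.trans ((Finset.sum_le_sum (fun i _ => h3 i)).trans ?_)
    simp
  refine ⟨fun e => Fin.castLE hcard (Fintype.equivFin F e), fun e f hef _ h => ?_⟩
  exact hef ((Fintype.equivFin F).injective (Fin.castLE_injective hcard h))

theorem fat_mult_eq {n : ℕ} (hn : 3 ≤ n) (m : ZMod n → ℕ) (i : ZMod n) :
    (fat n hn m).mult i (i + 1) = m i := by
  unfold mult
  have e : {x // (fat n hn m).ends x = s(i, i + 1)} ≃ Fin (m i) :=
    { toFun := fun x => Fin.cast (by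
        have h1 : (fat n hn m).ends x.1 = s(i, i + 1) := x.2
        have h2 : s(x.1.1, x.1.1 + 1) = s(i, i + 1) := h1
        have h3 : x.1.1 = i := by
          rw [Sym2.eq_iff] at h2
          rcases h2 with ⟨h3, _⟩ | ⟨h3, h4⟩
          · exact h3
          · exfalso
            apply two_ne hn
            rw [h3] at h4
            have : i + (1 + 1) = i + 0 := by rw [← add_assoc, h4, add_zero]
            exact add_left_cancel this
        rw [h3]) x.1.2
      invFun := fun a => ⟨⟨i, a⟩, rfl⟩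
      left_inv := by
        rintro ⟨⟨j, a⟩, hx⟩
        have h2 : s(j, j + 1) = s(i, i + 1) := hx
        have h3 : j = i := by
          rw [Sym2.eq_iff] at h2
          rcases h2 with ⟨h3, _⟩ | ⟨h3, h4⟩
          · exact h3
          · exfalso
            apply two_ne hn
            rw [h3] at h4
            have : i + (1 + 1) = i + 0 := by rw [← add_assoc, h4, add_zero]
            exact add_left_cancel this
        subst h3
        rfl
      right_inv := fun a => rfl }
  rw [Nat.card_congr e, Nat.card_fin]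

/-- A ring graph of order `n` in a disjoint union lies in one of the two parts. -/
theorem ring_in_sum {W F V₁ E₁ V₂ E₂ : Type} {R : MGraph W F} {G₁ : MGraph V₁ E₁}
    {G₂ : MGraph V₂ E₂} {n k : ℕ} (hR : IsRing R n) (hRG : IsSub R (G₁.sum G₂))
    (h1 : ¬ G₁.HasCycle n) (h2 : G₂.Colorable k) : R.Colorable k := by
  obtain ⟨hn, v, hv⟩ := hR
  obtain ⟨φ, ψ, hφ, hψ, hends⟩ := hRG
  -- consecutive vertices
  have hpos : 0 < n := by omega
  let u : ℕ → V₁ ⊕ V₂ := fun i => φ (v ⟨i % n, Nat.mod_lt _ hpos⟩)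
  have hadj : ∀ i, i < n → ∃ e, (G₁.sum G₂).ends e = s(u i, u ((i + 1) % n)) := by
    intro i hi
    obtain ⟨e, he⟩ := (hv ⟨i % n, Nat.mod_lt _ hpos⟩
      ⟨(i + 1) % n % n, Nat.mod_lt _ hpos⟩).2 (Or.inl (by
        show (i + 1) % n % n = (i % n + 1) % n
        rw [Nat.mod_mod, Nat.mod_eq_of_lt hi]))
    refine ⟨ψ e, ?_⟩
    rw [hends, he, Sym2.map_mk]
  have hinj : ∀ i < n, ∀ j < n, u i = u j → i = j := by
    intro i hi j hj h
    have h3 := congrArg Fin.val (v.injective (hφ h))
    dsimp only at h3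
    rwa [Nat.mod_eq_of_lt hi, Nat.mod_eq_of_lt hj] at h3
  have hsurj : ∀ w : W, ∃ i < n, φ w = u i := by
    intro w
    obtain ⟨i, rfl⟩ := v.surjective w
    refine ⟨i.1, i.2, ?_⟩
    have h3 : (⟨i.1 % n, Nat.mod_lt _ hpos⟩ : Fin n) = i := by
      apply Fin.ext
      exact Nat.mod_eq_of_lt i.2
    show φ (v i) = φ (v ⟨i.1 % n, Nat.mod_lt _ hpos⟩)
    rw [h3]
  rcases h0 : u 0 with u0 | u0
  · exfalso
    have hall : ∀ i < n, ∃ x, u i = Sum.inl x := by
      intro i
      induction i with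
      | zero => exact fun _ => ⟨u0, h0⟩
      | succ i ih =>
        intro hi
        obtain ⟨x, hx⟩ := ih (by omega)
        obtain ⟨e, he⟩ := hadj i (by omega)
        rw [Nat.mod_eq_of_lt hi] at he
        rcases hw : u (i + 1) with w | w
        · exact ⟨w, rfl⟩
        · exfalso
          exact sum_no_mixed G₁ G₂ x w e ⟨by rw [he, hx]; simp, by rw [he, hw]; simp⟩
    have hall' : ∀ i, ∃ x, i < n → u i = Sum.inl x := by
      intro i
      by_cases hi : i < n
      · obtain ⟨x, hx⟩ := hall i hi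
        exact ⟨x, fun _ => hx⟩
      · exact ⟨u0, fun h => absurd h hi⟩
    choose w hw using hall'
    apply h1
    refine ⟨w, fun i hi j hj hij => hinj i hi j hj (by rw [hw i hi, hw j hj, hij]), ?_⟩
    intro i hi
    obtain ⟨e, he⟩ := hadj i hi
    rw [hw i hi, hw _ (Nat.mod_lt _ hpos)] at he
    rcases e with e | e
    · exact ⟨e, (sum_ends_inl G₁ G₂ _ _ e).mp he⟩
    · exfalso
      exact mem_sum_lr G₁ G₂ (w i) e (by rw [he]; simp)
  · have hall : ∀ i < n, ∃ x, u i = Sum.inr x := by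
      intro i
      induction i with
      | zero => exact fun _ => ⟨u0, h0⟩
      | succ i ih =>
        intro hi
        obtain ⟨x, hx⟩ := ih (by omega)
        obtain ⟨e, he⟩ := hadj i (by omega)
        rw [Nat.mod_eq_of_lt hi] at he
        rcases hw : u (i + 1) with w | w
        · exfalso
          exact sum_no_mixed G₁ G₂ w x e ⟨by rw [he, hw]; simp, by rw [he, hx]; simp⟩
        · exact ⟨w, rfl⟩
    obtain ⟨c, hc⟩ := h2
    have hψr : ∀ e : F, ∃ e' : E₂, ψ e = Sum.inr e' := by
      intro e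
      obtain ⟨x, y, hxy, he⟩ := R.exists_ends e
      obtain ⟨i, hi, hxi⟩ := hsurj x
      obtain ⟨x', hx'⟩ := hall i hi
      rcases hψe : ψ e with e' | e'
      · exfalso
        have h3 : Sum.inr x' ∈ (G₁.sum G₂).ends (Sum.inl e') := by
          rw [← hψe, hends, he, Sym2.map_mk, hxi, hx']
          simp
        exact mem_sum_rl G₁ G₂ x' e' h3
      · exact ⟨e', rfl⟩
    choose ψ' hψ' using hψr
    refine ⟨fun e => c (ψ' e), fun e f hef ⟨x, hx, hx'⟩ => ?_⟩
    apply hc
    · intro h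
      apply hef
      apply hψ
      rw [hψ', hψ', h]
    · obtain ⟨i, hi, hxi⟩ := hsurj x
      obtain ⟨z, hz⟩ := hall i hi
      refine ⟨z, ?_, ?_⟩
      · rw [← mem_sum_rr G₁ G₂, ← hψ', hends, Sym2.mem_map]
        exact ⟨x, hx, by rw [hxi, hz]⟩
      · rw [← mem_sum_rr G₁ G₂, ← hψ', hends, Sym2.mem_map]
        exact ⟨x, hx', by rw [hxi, hz]⟩

/-- The long fat cycle together with a short simple one. -/
theorem long_short {p μ T : ℕ} (hp : 1 ≤ p) (hT : 1 ≤ T) (hμ1 : (p + 1) * T < μ)
    (hμ2 : μ ≤ (p + 1) * (T + 1)) :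
    ∃ (V E : Type) (_ : Finite V) (_ : Finite E) (G : MGraph V E),
      G.HasGirth (2 * p + 1) ∧ G.HasMaxMult μ ∧ G.HasMaxDegree (2 * μ) ∧
      G.HasChromaticIndex (2 * μ + (T + 1)) ∧
      ¬ ∃ (W F : Type) (R : MGraph W F), IsRing R (2 * p + 1) ∧ IsSub R G ∧
        R.HasChromaticIndex (2 * μ + (T + 1)) := by
  have hn1 : 3 ≤ 2 * (p + 1) + 1 := by omega
  have hn2 : 3 ≤ 2 * p + 1 := by omega
  have : NeZero (2 * (p + 1) + 1) := ⟨by omega⟩
  have : NeZero (2 * p + 1) := ⟨by omega⟩
  set G₁ := fat (2 * (p + 1) + 1) hn1 (fun _ => μ) with hG₁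
  set G₂ := fat (2 * p + 1) hn2 (fun _ => 1) with hG₂
  have hμ0 : 1 ≤ μ := by omega
  have hd1 : ∀ u, G₁.degree u = 2 * μ := by
    intro u; rw [hG₁, fat_degree]; ring
  have hd2 : ∀ u, G₂.degree u = 2 := by
    intro u; rw [hG₂, fat_degree]
  have hc1 : G₁.Colorable (2 * μ + (T + 1)) := by
    apply goldberg (Δ := 2 * μ) (p := p + 1) (by omega) ?_ _ _ G₁ rfl
      (fun u => (hd1 u).le) (fun l hl _ h => fat_cycle hn1 _ hl h)
    rw [Nat.add_sub_cancel_left]
    have : 2 * μ ≤ 2 * ((p + 1) * (T + 1)) := Nat.mul_le_mul_left _ hμ2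
    have h2 : 2 * ((p + 1) * (T + 1)) = 2 * (p + 1) * (T + 1) := by ring
    omega
  have hc2 : G₂.Colorable 3 := by
    apply goldberg (Δ := 2) (p := p) (by omega) ?_ _ _ G₂ rfl
      (fun u => (hd2 u).le) (fun l hl _ h => fat_cycle hn2 _ hl h)
    simp
    omega
  refine ⟨_, _, inferInstance, inferInstance, G₁.sum G₂, ⟨⟨by omega, ?_⟩, ?_⟩, ⟨?_, ?_⟩,
    ⟨?_, ?_⟩, ⟨?_, ?_⟩, ?_⟩
  · exact sum_cycle_inr G₁ G₂ (fat_cycle_self hn2 _ (fun _ => le_rfl))
  · rintro l ⟨hl, hc⟩
    rcases sum_cycle G₁ G₂ (by omega) hc with h | h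
    · have := fat_cycle hn1 _ hl h
      omega
    · exact fat_cycle hn2 _ hl h
  · apply sum_mult_le
    · intro u w _
      exact fat_mult_le hn1 _ (fun _ => le_rfl) u w
    · intro u w _
      exact (fat_mult_le hn2 _ (fun _ => le_rfl) u w).trans hμ0
  · refine ⟨Sum.inl 0, Sum.inl (0 + 1), ?_, ?_⟩
    · intro h
      have h1 := Sum.inl_injective h
      have : Fact (1 < 2 * (p + 1) + 1) := ⟨by omega⟩
      have : (1 : ZMod (2 * (p + 1) + 1)) = 0 := by
        rw [zero_add] at h1
        exact h1.symm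
      exact one_ne_zero this
    · rw [sum_mult_inl, hG₁, fat_mult_eq]
  · apply sum_degree_le
    · exact fun u => (hd1 u).le
    · exact fun u => (hd2 u).le.trans (by omega)
  · exact ⟨Sum.inl 0, by rw [sum_degree_inl, hd1]⟩
  · exact (sum_colorable G₁ G₂).2 ⟨hc1, Colorable.mono hc2 (by omega)⟩
  · intro k hk
    by_contra hcon
    have h1 := ((sum_colorable G₁ G₂).1 hk).1
    have h2 : G₁.Colorable (2 * μ + T) := Colorable.mono h1 (by omega)
    have h3 := G₁.overfull h2 (p := p + 1) (by simp)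
    have h4 : Nat.card ((i : ZMod (2 * (p + 1) + 1)) × Fin μ) = (2 * (p + 1) + 1) * μ := by
      rw [Nat.card_eq_fintype_card, Fintype.card_sigma]
      simp [ZMod.card]
    rw [h4] at h3
    have h5 : (2 * (p + 1) + 1) * μ = 2 * μ * (p + 1) + μ := by ring
    have h6 : (2 * μ + T) * (p + 1) = 2 * μ * (p + 1) + (p + 1) * T := by ring
    omega
  · rintro ⟨W, F, R, hR1, hR2, hR3⟩
    have h1 : R.Colorable 3 := by
      apply ring_in_sum hR1 hR2 _ hc2
      intro h
      have := fat_cycle hn1 _ (by omega) h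
      omega
    have := hR3.2 h1
    omega

end Pool.Agent.R52.SteffenEx
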