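import Pool.Agent.R52.SteffenDefs
import Pool.Agent.R52.SteffenEx

/-!
# Joining two graphs by a bridge, adding a chord
-/

set_option autoImplicit false

namespace Pool.Agent.R52.Bridge

open Pool.Agent.Results.MP_633d19_co.SmallDegree
open Pool.Agent.Results.MP_633d19_co.SmallDegree.MGraph
open Pool.Agent.R52.SteffenDefs
open Pool.Agent.R52.SteffenEx

variable {V E V₁ E₁ V₂ E₂ : Type}

/-- `G` is connected: it has a vertex, and a nonempty set of vertices closed under adjacency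
contains all vertices. -/
def Conn (G : MGraph V E) : Prop :=
  Nonempty V ∧ ∀ S : Set V, S.Nonempty →
    (∀ e u w, u ∈ G.ends e → w ∈ G.ends e → u ∈ S → w ∈ S) → ∀ v, v ∈ S

/-- The odd girth of `G` is `g`: the least odd `l ≥ 3` such that `G` contains a cycle of
length `l`. -/
def HasOddGirth (G : MGraph V E) (g : ℕ) : Prop :=
  IsLeast {l | 3 ≤ l ∧ l % 2 = 1 ∧ G.HasCycle l} g

/-- The graph `G` with one more edge, joining `a` and `b`. -/
def addEdge (G : MGraph V E) (a b : V) (hab : a ≠ b) : MGraph V (Option E) where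
  ends e := e.elim s(a, b) G.ends
  loopless e h := by
    rcases e with _ | e
    · exact hab (Sym2.mk_isDiag_iff.mp h)
    · exact G.loopless e h

theorem addEdge_none (G : MGraph V E) (a b : V) (hab : a ≠ b) :
    (addEdge G a b hab).ends none = s(a, b) := rfl

theorem addEdge_some (G : MGraph V E) (a b : V) (hab : a ≠ b) (e : E) :
    (addEdge G a b hab).ends (some e) = G.ends e := rfl

open Classical in
theorem addEdge_degree [Finite E] (G : MGraph V E) (a b : V) (hab : a ≠ b) (v : V) :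
    (addEdge G a b hab).degree v = G.degree v + (if v = a ∨ v = b then 1 else 0) := by
  have := Fintype.ofFinite E
  unfold degree
  have e : {e : Option E // v ∈ (addEdge G a b hab).ends e} ≃
      {e : E // v ∈ G.ends e} ⊕ {_u : Unit // v = a ∨ v = b} :=
    { toFun := fun x => match x with
        | ⟨none, h⟩ => Sum.inr ⟨(), Sym2.mem_iff.1 h⟩
        | ⟨some e, h⟩ => Sum.inl ⟨e, h⟩
      invFun := fun x => match x with
        | Sum.inl ⟨e, h⟩ => ⟨some e, h⟩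
        | Sum.inr ⟨_, h⟩ => ⟨none, Sym2.mem_iff.2 h⟩
      left_inv := by
        rintro ⟨_ | e, h⟩ <;> rfl
      right_inv := by
        rintro (⟨e, h⟩ | ⟨u, h⟩) <;> rfl }
  rw [Nat.card_congr e, Nat.card_sum]
  congr 1
  split_ifs with h
  · rw [Nat.card_congr (Equiv.subtypeUnivEquiv (fun _ => h))]
    simp
  · rw [Nat.card_eq_zero]
    left
    exact ⟨fun x => h x.2⟩

theorem addEdge_sub (G : MGraph V E) (a b : V) (hab : a ≠ b) : IsSub G (addEdge G a b hab) :=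
  ⟨id, some, Function.injective_id, Option.some_injective _, fun e => by
    rw [addEdge_some, Sym2.map_id]; rfl⟩

theorem addEdge_conn {G : MGraph V E} (a b : V) (hab : a ≠ b) (h : Conn G) :
    Conn (addEdge G a b hab) := by
  refine ⟨h.1, fun S hS hcl => h.2 S hS ?_⟩
  intro e u w hu hw
  exact hcl (some e) u w hu hw

theorem bridge_conn {G₁ : MGraph V₁ E₁} {G₂ : MGraph V₂ E₂} (a : V₁) (b : V₂) (h₁ : Conn G₁)
    (h₂ : Conn G₂) : Conn (addEdge (G₁.sum G₂) (Sum.inl a) (Sum.inr b) (by simp)) := by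
  refine ⟨⟨Sum.inl a⟩, ?_⟩
  intro S hS hcl
  have key1 : ∀ x, Sum.inl x ∈ S → ∀ y, Sum.inl y ∈ S := by
    intro x hx y
    apply h₁.2 (Sum.inl ⁻¹' S) ⟨x, hx⟩
    intro e u w hu hw huS
    exact hcl (some (Sum.inl e)) (Sum.inl u) (Sum.inl w) ((mem_sum_ll G₁ G₂ u e).2 hu)
      ((mem_sum_ll G₁ G₂ w e).2 hw) huS
  have key2 : ∀ x, Sum.inr x ∈ S → ∀ y, Sum.inr y ∈ S := by
    intro x hx y
    apply h₂.2 (Sum.inr ⁻¹' S) ⟨x, hx⟩
    intro e u w hu hw huS
    exact hcl (some (Sum.inr e)) (Sum.inr u) (Sum.inr w) ((mem_sum_rr G₁ G₂ u e).2 hu)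
      ((mem_sum_rr G₁ G₂ w e).2 hw) huS
  obtain ⟨x | x, hx⟩ := hS
  · have hb : Sum.inr b ∈ S := hcl none (Sum.inl a) (Sum.inr b) (Sym2.mem_mk_left _ _)
      (Sym2.mem_mk_right _ _) (key1 x hx a)
    rintro (v | v)
    · exact key1 x hx v
    · exact key2 b hb v
  · have ha : Sum.inl a ∈ S := hcl none (Sum.inr b) (Sum.inl a) (Sym2.mem_mk_right _ _)
      (Sym2.mem_mk_left _ _) (key2 x hx b)
    rintro (v | v)
    · exact key1 a ha v
    · exact key2 x hx v

theorem cyc_prop {n : ℕ} {P : ℕ → Prop} (hP : ∀ i < n, P i → P (nx n i)) {i : ℕ} (hi : i < n)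
    (h : P i) : ∀ j < n, P j := by
  have key : ∀ m, P ((i + m) % n) := by
    intro m
    induction m with
    | zero => rw [Nat.add_zero, Nat.mod_eq_of_lt hi]; exact h
    | succ m ih =>
      have h1 := hP _ (Nat.mod_lt _ (by omega)) ih
      rw [← mod_eq_nx (Nat.mod_lt _ (by omega)), Nat.mod_add_mod] at h1
      exact h1
  intro j hj
  have h2 := key (n - i + j)
  have h3 : i + (n - i + j) = j + n := by omega
  rw [h3, Nat.add_mod_right, Nat.mod_eq_of_lt hj] at h2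
  exact h2

/-- A cyclic sequence in a graph with a bridge does not use the bridge. -/
theorem no_bridge {G₁ : MGraph V₁ E₁} {G₂ : MGraph V₂ E₂} {a : V₁} {b : V₂} {n : ℕ} (hn : 3 ≤ n)
    {u : ℕ → V₁ ⊕ V₂} (hinj : ∀ i < n, ∀ j < n, u i = u j → i = j)
    (hadj : ∀ i < n, ∃ e, (addEdge (G₁.sum G₂) (Sum.inl a) (Sum.inr b) (by simp)).ends e =
      s(u i, u (nx n i))) :
    (∀ i < n, ∃ x, u i = Sum.inl x) ∨ (∀ i < n, ∃ x, u i = Sum.inr x) := by
  by_contra hcon
  push Not at hcon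
  obtain ⟨⟨i0, hi0, h1⟩, ⟨j0, hj0, h2⟩⟩ := hcon
  have hi0r : ∃ x, u i0 = Sum.inr x := by
    rcases h : u i0 with x | x
    · exact absurd h (h1 x)
    · exact ⟨x, rfl⟩
  have hj0l : ∃ x, u j0 = Sum.inl x := by
    rcases h : u j0 with x | x
    · exact ⟨x, rfl⟩
    · exact absurd h (h2 x)
  obtain ⟨x0, hx0⟩ := hi0r
  obtain ⟨y0, hy0⟩ := hj0l
  -- from left to right
  obtain ⟨i, hi, ⟨x1, hx1⟩, h3⟩ : ∃ i < n, (∃ x, u i = Sum.inl x) ∧ ¬ ∃ x, u (nx n i) = Sum.inl x := by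
    by_contra hc
    push Not at hc
    have := cyc_prop (P := fun i => ∃ x, u i = Sum.inl x) (fun i hi h => hc i hi h) hj0 ⟨y0, hy0⟩ i0 hi0
    obtain ⟨z, hz⟩ := this
    rw [hx0] at hz
    simp at hz
  obtain ⟨j, hj, ⟨x2, hx2⟩, h4⟩ : ∃ j < n, (∃ x, u j = Sum.inr x) ∧ ¬ ∃ x, u (nx n j) = Sum.inr x := by
    by_contra hc
    push Not at hc
    have := cyc_prop (P := fun i => ∃ x, u i = Sum.inr x) (fun i hi h => hc i hi h) hi0 ⟨x0, hx0⟩ j0 hj0
    obtain ⟨z, hz⟩ := this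
    rw [hy0] at hz
    simp at hz
  have h5 : ∃ w, u (nx n i) = Sum.inr w := by
    rcases h : u (nx n i) with x | x
    · exact absurd ⟨x, h⟩ h3
    · exact ⟨x, rfl⟩
  have h6 : ∃ w, u (nx n j) = Sum.inl w := by
    rcases h : u (nx n j) with x | x
    · exact ⟨x, rfl⟩
    · exact absurd ⟨x, h⟩ h4
  obtain ⟨w1, hw1⟩ := h5
  obtain ⟨w2, hw2⟩ := h6
  obtain ⟨e1, he1⟩ := hadj i hi
  obtain ⟨e2, he2⟩ := hadj j hj
  have h7 : e1 = none := by
    rcases e1 with _ | e1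
    · rfl
    · exfalso
      rw [addEdge_some] at he1
      exact sum_no_mixed G₁ G₂ x1 w1 e1 ⟨by rw [he1, hx1]; simp, by rw [he1, hw1]; simp⟩
  have h8 : e2 = none := by
    rcases e2 with _ | e2
    · rfl
    · exfalso
      rw [addEdge_some] at he2
      exact sum_no_mixed G₁ G₂ w2 x2 e2 ⟨by rw [he2, hw2]; simp, by rw [he2, hx2]; simp⟩
  have h9 : s(u i, u (nx n i)) = s(u j, u (nx n j)) := by
    rw [← he1, ← he2, h7, h8]
  have h10 := pair_inj hn hinj i hi j hj h9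
  rw [h10, hx2] at hx1
  simp at hx1

theorem bridge_cycle {G₁ : MGraph V₁ E₁} {G₂ : MGraph V₂ E₂} {a : V₁} {b : V₂} {l : ℕ}
    (hl : 3 ≤ l)
    (h : (addEdge (G₁.sum G₂) (Sum.inl a) (Sum.inr b) (by simp)).HasCycle l) :
    G₁.HasCycle l ∨ G₂.HasCycle l := by
  obtain ⟨u, hinj, hadj⟩ := h
  have hadj' : ∀ i < l, ∃ e, (addEdge (G₁.sum G₂) (Sum.inl a) (Sum.inr b) (by simp)).ends e =
      s(u i, u (nx l i)) := by
    intro i hi
    rw [← mod_eq_nx hi]
    exact hadj i hi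
  apply sum_cycle G₁ G₂ (by omega)
  refine ⟨u, hinj, ?_⟩
  intro i hi
  rw [mod_eq_nx hi]
  obtain ⟨e, he⟩ := hadj' i hi
  rcases e with _ | e
  · exfalso
    rw [addEdge_none] at he
    have h1 : Sum.inl a ∈ s(u i, u (nx l i)) := by rw [← he]; simp
    have h2 : Sum.inr b ∈ s(u i, u (nx l i)) := by rw [← he]; simp
    rw [Sym2.mem_iff] at h1 h2
    rcases no_bridge hl hinj hadj' with h3 | h3
    · obtain ⟨x, hx⟩ := h3 i hi
      obtain ⟨z, hz⟩ := h3 _ (nx_lt hi)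
      rw [hx, hz] at h2
      simp at h2
    · obtain ⟨x, hx⟩ := h3 i hi
      obtain ⟨z, hz⟩ := h3 _ (nx_lt hi)
      rw [hx, hz] at h1
      simp at h1
  · exact ⟨e, he⟩

/-- A ring in a graph with a bridge avoids the bridge. -/
theorem ring_sub_sum {W F : Type} {R : MGraph W F} {G₁ : MGraph V₁ E₁} {G₂ : MGraph V₂ E₂}
    {a : V₁} {b : V₂} {n : ℕ} (hR : IsRing R n)
    (hRG : IsSub R (addEdge (G₁.sum G₂) (Sum.inl a) (Sum.inr b) (by simp))) :
    IsSub R (G₁.sum G₂) := by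
  obtain ⟨hn, v, hv⟩ := hR
  obtain ⟨φ, ψ, hφ, hψ, hends⟩ := hRG
  have hpos : 0 < n := by omega
  let u : ℕ → V₁ ⊕ V₂ := fun i => φ (v ⟨i % n, Nat.mod_lt _ hpos⟩)
  have hadj : ∀ i, i < n → ∃ e, (addEdge (G₁.sum G₂) (Sum.inl a) (Sum.inr b) (by simp)).ends e =
      s(u i, u (nx n i)) := by
    intro i hi
    obtain ⟨e, he⟩ := (hv ⟨i % n, Nat.mod_lt _ hpos⟩
      ⟨nx n i % n, Nat.mod_lt _ hpos⟩).2 (Or.inl (by
        show nx n i % n = (i % n + 1) % n
        rw [← mod_eq_nx hi, Nat.mod_mod, Nat.mod_eq_of_lt hi]))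
    refine ⟨ψ e, ?_⟩
    rw [hends, he, Sym2.map_mk]
  have hinj : ∀ i < n, ∀ j < n, u i = u j → i = j := by
    intro i hi j hj h
    have h3 := congrArg Fin.val (v.injective (hφ h))
    dsimp only at h3
    rwa [Nat.mod_eq_of_lt hi, Nat.mod_eq_of_lt hj] at h3
  have hside := no_bridge hn hinj hadj
  have hmem : ∀ w : W, ∃ i < n, φ w = u i := by
    intro w
    obtain ⟨i, rfl⟩ := v.surjective w
    refine ⟨i.1, i.2, ?_⟩
    have h3 : (⟨i.1 % n, Nat.mod_lt _ hpos⟩ : Fin n) = i := by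
      apply Fin.ext
      exact Nat.mod_eq_of_lt i.2
    show φ (v i) = φ (v ⟨i.1 % n, Nat.mod_lt _ hpos⟩)
    rw [h3]
  have hsome : ∀ e : F, ∃ e', ψ e = some e' := by
    intro e
    rcases h : ψ e with _ | e'
    · exfalso
      have h1 := hends e
      rw [h, addEdge_none] at h1
      have h2 : Sum.inl a ∈ (R.ends e).map φ := by rw [← h1]; simp
      have h3 : Sum.inr b ∈ (R.ends e).map φ := by rw [← h1]; simp
      rw [Sym2.mem_map] at h2 h3
      obtain ⟨w, _, hw⟩ := h2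
      obtain ⟨w', _, hw'⟩ := h3
      obtain ⟨i, hi, hwi⟩ := hmem w
      obtain ⟨j, hj, hwj⟩ := hmem w'
      rcases hside with h4 | h4
      · obtain ⟨x, hx⟩ := h4 j hj
        rw [hwj, hx] at hw'
        simp at hw'
      · obtain ⟨x, hx⟩ := h4 i hi
        rw [hwi, hx] at hw
        simp at hw
    · exact ⟨e', rfl⟩
  choose ψ' hψ' using hsome
  refine ⟨φ, ψ', hφ, ?_, ?_⟩
  · intro e f h
    apply hψ
    rw [hψ', hψ', h]
  · intro e
    rw [← hends, hψ', addEdge_some]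

theorem fat_conn {n : ℕ} (hn : 3 ≤ n) (m : ZMod n → ℕ) (hm : ∀ i, 1 ≤ m i) :
    Conn (fat n hn m) := by
  refine ⟨⟨0⟩, ?_⟩
  rintro S ⟨v0, hv0⟩ hcl
  have hstep : ∀ v, v ∈ S → v + 1 ∈ S := by
    intro v hv
    exact hcl ⟨v, ⟨0, hm v⟩⟩ v (v + 1) (Sym2.mem_mk_left _ _) (Sym2.mem_mk_right _ _) hv
  have hall : ∀ j : ℕ, v0 + (j : ZMod n) ∈ S := by
    intro j
    induction j with
    | zero => simpa using hv0
    | succ j ih =>
      have := hstep _ ih
      push_cast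
      rwa [← add_assoc]
  intro v
  have : NeZero n := ⟨by omega⟩
  have h := hall (v - v0).val
  rw [ZMod.natCast_val, ZMod.cast_id', id] at h
  simpa using h

theorem fat_card {n : ℕ} [NeZero n] (m : ZMod n → ℕ) :
    Nat.card ((i : ZMod n) × Fin (m i)) = ∑ i, m i := by
  rw [Nat.card_eq_fintype_card, Fintype.card_sigma]
  simp

end Pool.Agent.R52.Bridge
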