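import Pool.Agent.R52.Bridge

/-!
# Graphs attaining Goldberg's bound without the short ring: bridges
-/

set_option autoImplicit false

namespace Pool.Agent.R52.BridgeEx

open Pool.Agent.Results.MP_633d19_co.SmallDegree
open Pool.Agent.Results.MP_633d19_co.SmallDegree.MGraph
open Pool.Agent.R52.SteffenDefs
open Pool.Agent.R52.SteffenEx
open Pool.Agent.R52.Bridge

/-- There is a connected graph with maximum degree `Δ` and odd girth `2 p + 1` whose chromatic
index is `Δ + 1 + T` and which has no ring graph of order `2 p + 1` of the same chromatic index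
as a subgraph. -/
def Bad (p Δ T : ℕ) : Prop :=
  ∃ (V E : Type) (_ : Finite V) (_ : Finite E) (G : MGraph V E),
    Conn G ∧ G.HasMaxDegree Δ ∧ HasOddGirth G (2 * p + 1) ∧
    G.HasChromaticIndex (Δ + 1 + T) ∧
    ¬ ∃ (W F : Type) (R : MGraph W F), IsRing R (2 * p + 1) ∧ IsSub R G ∧
      R.HasChromaticIndex (Δ + 1 + T)

theorem bridge_example {p Δ T : ℕ} (hp : 1 ≤ p) (hΔ3 : 3 ≤ Δ) (hΔT : Δ < 2 * p * (T + 1) + 2)
    (m : ZMod (2 * (p + 1) + 1) → ℕ) (hm1 : ∀ i, 1 ≤ m i) (hdeg : ∀ v, m v + m (v - 1) ≤ Δ)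
    (h0 : m 0 + m (0 - 1) + 1 ≤ Δ) (hΔ : ∃ v, v ≠ 0 ∧ m v + m (v - 1) = Δ)
    (hsum : ∀ [Fintype (ZMod (2 * (p + 1) + 1))], (Δ + T) * (p + 1) + 1 ≤ ∑ i, m i) :
    Bad p Δ T := by
  have hn1 : 3 ≤ 2 * (p + 1) + 1 := by omega
  have hn2 : 3 ≤ 2 * p + 1 := by omega
  have : NeZero (2 * (p + 1) + 1) := ⟨by omega⟩
  have : NeZero (2 * p + 1) := ⟨by omega⟩
  set G₁ := fat (2 * (p + 1) + 1) hn1 m with hG₁
  set G₂ := fat (2 * p + 1) hn2 (fun _ => 1) with hG₂
  have hd1 : ∀ u, G₁.degree u = m u + m (u - 1) := by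
    intro u; rw [hG₁, fat_degree]
  have hd2 : ∀ u, G₂.degree u = 2 := by
    intro u; rw [hG₂, fat_degree]
  have hc2 : G₂.Colorable 3 := by
    apply goldberg (Δ := 2) (p := p) (by omega) ?_ _ _ G₂ rfl
      (fun u => (hd2 u).le) (fun l hl _ h => fat_cycle hn2 _ hl h)
    simp
    omega
  have hne : (Sum.inl 0 : ZMod (2 * (p + 1) + 1) ⊕ ZMod (2 * p + 1)) ≠ Sum.inr 0 := by simp
  set G := addEdge (G₁.sum G₂) (Sum.inl 0) (Sum.inr 0) hne with hG
  have hcyc : ∀ l, 3 ≤ l → G.HasCycle l → 2 * p + 1 ≤ l := by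
    intro l hl h
    rcases bridge_cycle hl h with h | h
    · have := fat_cycle hn1 _ hl h
      omega
    · exact fat_cycle hn2 _ hl h
  have hsubs : IsSub (G₁.sum G₂) G := addEdge_sub _ _ _ _
  have hdegG : ∀ u, G.degree u ≤ Δ := by
    intro u
    rw [hG, addEdge_degree]
    rcases u with u | u
    · rw [sum_degree_inl, hd1]
      by_cases h : u = 0
      · rw [if_pos (Or.inl (by rw [h])), h]
        exact h0
      · rw [if_neg (by
          rintro (h' | h')
          · exact h (Sum.inl_injective h')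
          · simp at h'), Nat.add_zero]
        exact hdeg u
    · rw [sum_degree_inr, hd2]
      split_ifs <;> omega
  refine ⟨_, _, inferInstance, inferInstance, G, bridge_conn _ _ (fat_conn hn1 m hm1)
    (fat_conn hn2 _ (fun _ => le_rfl)), ⟨hdegG, ?_⟩, ⟨⟨by omega, by omega, ?_⟩, ?_⟩,
    ⟨?_, ?_⟩, ?_⟩
  · obtain ⟨v, hv0, hv⟩ := hΔ
    refine ⟨Sum.inl v, ?_⟩
    rw [hG, addEdge_degree, sum_degree_inl, hd1, if_neg, Nat.add_zero, hv]
    rintro (h | h)
    · exact hv0 (Sum.inl_injective h)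
    · simp at h
  · obtain ⟨u, h1, h2⟩ := sum_cycle_inr G₁ G₂ (fat_cycle_self hn2 (fun _ => 1) (fun _ => le_rfl))
    refine ⟨u, h1, fun i hi => ?_⟩
    obtain ⟨e, he⟩ := h2 i hi
    exact ⟨some e, he⟩
  · rintro l ⟨hl, -, h⟩
    exact hcyc l hl h
  · apply goldberg (Δ := Δ) (p := p) (by omega) ?_ _ _ G rfl hdegG (fun l hl _ h => hcyc l hl h)
    have : Δ + 1 + T - Δ = T + 1 := by omega
    rw [this]
    exact hΔT
  · intro k hk
    by_contra hcon
    have h1 := ((sum_colorable G₁ G₂).1 (hsubs.colorable hk)).1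
    have h2 : G₁.Colorable (Δ + T) := Colorable.mono h1 (by omega)
    have h3 := G₁.overfull h2 (p := p + 1) (by simp)
    rw [fat_card] at h3
    have h4 := hsum
    omega
  · rintro ⟨W, F, R, hR1, hR2, hR3⟩
    have h1 : R.Colorable 3 := by
      apply ring_in_sum hR1 (ring_sub_sum hR1 hR2) _ hc2
      intro h
      have := fat_cycle hn1 _ (by omega) h
      omega
    have := hR3.2 h1
    omega

theorem val_sub_one {n : ℕ} [NeZero n] (v : ZMod n) (hv : v ≠ 0) :
    (v - 1).val + 1 = v.val := by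
  have h1 : (v.val : ZMod n) = v := by
    rw [ZMod.natCast_val, ZMod.cast_id', id]
  have h2 : v.val ≠ 0 := by
    intro h
    rw [h] at h1
    apply hv
    rw [← h1]
    simp
  have h3 : v - 1 = ((v.val - 1 : ℕ) : ZMod n) := by
    rw [Nat.cast_sub (by omega), h1]
    simp
  have h4 := ZMod.val_lt v
  rw [h3, ZMod.val_natCast, Nat.mod_eq_of_lt (by omega)]
  omega

theorem val_neg_one' {n : ℕ} (hn : 1 < n) : ((0 : ZMod n) - 1).val = n - 1 := by
  obtain ⟨k, rfl⟩ : ∃ k, n = k + 1 := ⟨n - 1, by omega⟩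
  rw [zero_sub, ZMod.val_neg_one]
  simp

/-- Odd maximum degree. -/
theorem bad_odd {p T m : ℕ} (hp : 1 ≤ p) (hΔT : 2 * m + 1 < 2 * p * (T + 1) + 2)
    (hm : T * (p + 1) + 1 ≤ m) : Bad p (2 * m + 1) T := by
  have : NeZero (2 * (p + 1) + 1) := ⟨by omega⟩
  have hm1 : 1 ≤ m := by omega
  have h0 : (0 : ZMod (2 * (p + 1) + 1)).val = 0 := ZMod.val_zero
  have hn1 : ((0 : ZMod (2 * (p + 1) + 1)) - 1).val = 2 * (p + 1) := by
    rw [val_neg_one' (by omega)]
    omega
  have hodd : ∀ v : ZMod (2 * (p + 1) + 1), v ≠ 0 → alt (2 * (p + 1) + 1) m (m + 1) v +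
      alt (2 * (p + 1) + 1) m (m + 1) (v - 1) = 2 * m + 1 := by
    intro v hv
    have h1 := val_sub_one v hv
    unfold alt
    split_ifs <;> omega
  have hz : alt (2 * (p + 1) + 1) m (m + 1) 0 + alt (2 * (p + 1) + 1) m (m + 1) (0 - 1) =
      2 * m := by
    unfold alt
    rw [h0, hn1, if_pos (by omega), if_pos (by omega)]
    omega
  apply bridge_example hp (by omega) hΔT (alt (2 * (p + 1) + 1) m (m + 1))
  · intro i
    unfold alt
    split_ifs <;> omega
  · intro v
    by_cases hv : v = 0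
    · rw [hv, hz]; omega
    · exact (hodd v hv).le
  · rw [hz]
  · refine ⟨1, ?_, hodd 1 ?_⟩ <;>
    · have : Fact (1 < 2 * (p + 1) + 1) := ⟨by omega⟩
      exact one_ne_zero
  · intro inst
    have h1 := alt_sum (p + 1) m (m + 1)
    have h2 : (∑ i, alt (2 * (p + 1) + 1) m (m + 1) i) = (p + 1 + 1) * m + (p + 1) * (m + 1) := by
      rw [← h1]
      apply Finset.sum_congr _ (fun _ _ => rfl)
      ext x
      simp
    rw [h2]
    nlinarith

/-- Even maximum degree, one edge to spare. -/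
theorem bad_even {p T m : ℕ} (hp : 1 ≤ p) (hΔT : 2 * m < 2 * p * (T + 1) + 2)
    (hm : T * (p + 1) + 2 ≤ m) : Bad p (2 * m) T := by
  have : NeZero (2 * (p + 1) + 1) := ⟨by omega⟩
  have hF : Fact (1 < 2 * (p + 1) + 1) := ⟨by omega⟩
  let w : ZMod (2 * (p + 1) + 1) → ℕ := fun i => if i = 0 then m - 1 else m
  have hw1 : ∀ i, w i ≤ m := by
    intro i
    simp only [w]
    split_ifs <;> omega
  have hw0 : w 0 = m - 1 := by simp [w]
  have hwn : ∀ i, i ≠ 0 → w i = m := fun i hi => by simp [w, hi]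
  apply bridge_example hp (by omega) hΔT w
  · intro i
    simp only [w]
    split_ifs <;> omega
  · intro v
    have := hw1 v
    have := hw1 (v - 1)
    omega
  · have := hw1 (0 - 1)
    rw [hw0]
    omega
  · refine ⟨2, ?_, ?_⟩
    · intro h
      have h2 : ((2 : ℕ) : ZMod (2 * (p + 1) + 1)) = 0 := by exact_mod_cast h
      rw [ZMod.natCast_eq_zero_iff] at h2
      have := Nat.le_of_dvd (by norm_num) h2
      omega
    · rw [hwn, hwn]
      · omega
      · intro h
        have : (1 : ZMod (2 * (p + 1) + 1)) = 0 := by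
          rw [← h]; norm_num
        exact one_ne_zero this
      · intro h
        have h2 : ((2 : ℕ) : ZMod (2 * (p + 1) + 1)) = 0 := by exact_mod_cast h
        rw [ZMod.natCast_eq_zero_iff] at h2
        have := Nat.le_of_dvd (by norm_num) h2
        omega
  · intro inst
    have h1 : ∀ i, w i + (if i = 0 then 1 else 0) = m := by
      intro i
      simp only [w]
      split_ifs <;> omega
    have h2 : ∑ i, w i + 1 = (2 * (p + 1) + 1) * m := by
      have h3 : ∑ i : ZMod (2 * (p + 1) + 1), (w i + (if i = 0 then 1 else 0)) =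
          ∑ i : ZMod (2 * (p + 1) + 1), m := Finset.sum_congr rfl (fun i _ => h1 i)
      rw [Finset.sum_add_distrib, Finset.sum_ite_eq' Finset.univ (0 : ZMod (2 * (p + 1) + 1)),
        if_pos (Finset.mem_univ _), Finset.sum_const, Finset.card_univ, ZMod.card,
        smul_eq_mul] at h3
      exact h3
    nlinarith

end Pool.Agent.R52.BridgeEx
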