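import Pool.Agent.Results.MP_633d19_co.SmallDegree

/-!
# Ring graphs and subgraphs of multigraphs
-/

set_option autoImplicit false

namespace Pool.Agent.R52.SteffenDefs

open Pool.Agent.Results.MP_633d19_co.SmallDegree
open Pool.Agent.Results.MP_633d19_co.SmallDegree.MGraph

/-- `R` is a ring graph of order `n`: its underlying simple graph is a cycle through all its `n`
vertices, i.e. the vertices can be numbered `v 0, ..., v (n-1)` (`n ≥ 3`) so that two vertices are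
joined by an edge exactly when they are cyclically consecutive. -/
def IsRing {W F : Type} (R : MGraph W F) (n : ℕ) : Prop :=
  3 ≤ n ∧ ∃ v : Fin n ≃ W, ∀ i j : Fin n, (∃ e, R.ends e = s(v i, v j)) ↔
    (j.1 = (i.1 + 1) % n ∨ i.1 = (j.1 + 1) % n)

/-- `R` is (isomorphic to) a subgraph of `G`. -/
def IsSub {W F V E : Type} (R : MGraph W F) (G : MGraph V E) : Prop :=
  ∃ (φ : W → V) (ψ : F → E), Function.Injective φ ∧ Function.Injective ψ ∧
    ∀ e, G.ends (ψ e) = (R.ends e).map φ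

/-- A subgraph inherits colourings. -/
theorem IsSub.colorable {W F V E : Type} {R : MGraph W F} {G : MGraph V E} (h : IsSub R G)
    {k : ℕ} (hG : G.Colorable k) : R.Colorable k := by
  obtain ⟨φ, ψ, hφ, hψ, hends⟩ := h
  obtain ⟨c, hc⟩ := hG
  refine ⟨fun e => c (ψ e), fun e f hef ⟨v, hv, hw⟩ => ?_⟩
  apply hc (ψ e) (ψ f) (fun h => hef (hψ h))
  refine ⟨φ v, ?_, ?_⟩
  · rw [hends]; exact Sym2.mem_map.mpr ⟨v, hv, rfl⟩
  · rw [hends]; exact Sym2.mem_map.mpr ⟨v, hw, rfl⟩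

theorem pair_inj {V : Type} {l : ℕ} {v : ℕ → V} (hl : 3 ≤ l)
    (inj : ∀ i < l, ∀ j < l, v i = v j → i = j) :
    ∀ i < l, ∀ j < l, s(v i, v (nx l i)) = s(v j, v (nx l j)) → i = j := by
  intro i hi j hj h1
  rw [Sym2.eq_iff] at h1
  rcases h1 with ⟨h1, _⟩ | ⟨h1, h2⟩
  · exact inj i hi j hj h1
  · have h3 := inj _ hi _ (nx_lt hj) h1
    have h4 := inj _ (nx_lt hi) _ hj h2
    unfold nx at h3 h4
    split_ifs at h3 h4 <;> omega

/-- The ring spanned by a set of edges joining consecutive vertices of a cyclic sequence. -/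
theorem exists_ring {V E : Type} (G : MGraph V E) {l : ℕ} (hl : 3 ≤ l) (y : ℕ → V)
    (hinj : ∀ i < l, ∀ j < l, y i = y j → i = j) (S : Finset E)
    (hS : ∀ e ∈ S, ∃ i < l, G.ends e = s(y i, y (nx l i)))
    (hhit : ∀ i < l, ∃ e ∈ S, G.ends e = s(y i, y (nx l i))) :
    ∃ R : MGraph (Fin l) {e : E // e ∈ S}, IsRing R l ∧ IsSub R G := by
  have hS' : ∀ e : {e : E // e ∈ S}, ∃ i : Fin l, G.ends e.1 = s(y i.1, y (nx l i.1)) := by
    intro e
    obtain ⟨i, hi, h⟩ := hS e.1 e.2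
    exact ⟨⟨i, hi⟩, h⟩
  choose ie hie using hS'
  have hnx : ∀ i : ℕ, i < l → nx l i ≠ i := by
    intro i hi h
    unfold nx at h
    split_ifs at h <;> omega
  let R : MGraph (Fin l) {e : E // e ∈ S} :=
    { ends := fun e => s(ie e, ⟨nx l (ie e).1, nx_lt (ie e).2⟩)
      loopless := fun e h => by
        rw [Sym2.mk_isDiag_iff] at h
        exact hnx _ (ie e).2 (congrArg Fin.val h).symm }
  refine ⟨R, ⟨hl, Equiv.refl _, ?_⟩, fun i => y i.1, Subtype.val, ?_, Subtype.val_injective, ?_⟩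
  · intro i j
    rw [mod_eq_nx i.2, mod_eq_nx j.2]
    constructor
    · rintro ⟨e, he⟩
      have he' : s(ie e, ⟨nx l (ie e).1, nx_lt (ie e).2⟩) = s(i, j) := he
      rw [Sym2.eq_iff] at he'
      rcases he' with ⟨h1, h2⟩ | ⟨h1, h2⟩
      · left; rw [← h2, ← h1]
      · right; rw [← h2, ← h1]
    · have key : ∀ i j : Fin l, j.1 = nx l i.1 → ∃ e, R.ends e = s(i, j) := by
        intro i j h
        obtain ⟨e, he, hends⟩ := hhit i.1 i.2
        refine ⟨⟨e, he⟩, ?_⟩
        have h1 := hie ⟨e, he⟩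
        rw [hends] at h1
        have h2 := pair_inj hl hinj _ i.2 _ (ie ⟨e, he⟩).2 h1
        have h3 : ie ⟨e, he⟩ = i := Fin.ext h2.symm
        show s(ie ⟨e, he⟩, ⟨nx l (ie ⟨e, he⟩).1, nx_lt (ie ⟨e, he⟩).2⟩) = s(i, j)
        have h4 : (⟨nx l i.1, nx_lt i.2⟩ : Fin l) = j := Fin.ext h.symm
        rw [h3, h4]
      rintro (h | h)
      · exact key i j h
      · obtain ⟨e, he⟩ := key j i h
        refine ⟨e, ?_⟩
        show R.ends e = s(i, j)
        rw [he, Sym2.eq_swap]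
  · intro i j h
    exact Fin.ext (hinj _ i.2 _ j.2 h)
  · intro e
    show G.ends e.1 = (s(ie e, ⟨nx l (ie e).1, nx_lt (ie e).2⟩) : Sym2 (Fin l)).map _
    rw [Sym2.map_mk]
    exact hie e

end Pool.Agent.R52.SteffenDefs
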