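import Pool.Agent.R52.Ring
import Pool.Agent.R52.SteffenDefs
import Pool.Agent.W998.KG.Stm3
import Pool.Agent.W411.KG.TAS
import Pool.Agent.W992.KG.TRE
import Pool.Agent.W733.KG.CLS
import Pool.Agent.W592.KG.DEG
import Pool.Agent.W33.KG.EVN

/-!
# Graphs of large odd girth in which all closed trees are cycles
-/

set_option autoImplicit false

namespace Pool.Agent.R52.OddRing

open Pool.Agent.Results.MP_633d19_co.SmallDegree
open Pool.Agent.Results.MP_633d19_co.SmallDegree.MGraph
open Pool.Agent.W998.KG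
open Pool.Agent.R52.Ring
open Pool.Agent.R52.SteffenDefs

variable {V E : Type}

/-- The two cycles cut off by a chord. -/
theorem chord_two {G : MGraph V E} {l : ℕ} {y : ℕ → V}
    (inj : ∀ i < l, ∀ j < l, y i = y j → i = j)
    (ed : ∀ i < l, ∃ e, G.ends e = s(y i, y (nx l i))) {i j : ℕ} (hij : i + 1 < j) (hj : j < l)
    (hadj : ∃ e, G.ends e = s(y i, y j)) :
    G.HasCycle (j - i + 1) ∧ G.HasCycle (l - (j - i) + 1) := by
  constructor
  · refine ⟨fun m => y (i + m), ?_, ?_⟩
    · intro a ha b hb hab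
      have := inj _ (by omega) _ (by omega) hab
      omega
    · intro m hm
      rcases Nat.lt_or_ge m (j - i) with h | h
      · rw [Nat.mod_eq_of_lt (by omega)]
        obtain ⟨e, he⟩ := ed (i + m) (by omega)
        refine ⟨e, ?_⟩
        have : nx l (i + m) = i + (m + 1) := by
          unfold nx
          rw [if_neg (by omega)]
          omega
        rw [he, this]
      · have : m = j - i := by omega
        subst this
        obtain ⟨e, he⟩ := hadj
        refine ⟨e, ?_⟩
        rw [Nat.mod_self, he]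
        have e1 : i + (j - i) = j := by omega
        dsimp only
        rw [e1, Nat.add_zero, Sym2.eq_swap]
  · refine ⟨fun m => y ((j + m) % l), ?_, ?_⟩
    · intro a ha b hb hab
      have h3 := inj _ (Nat.mod_lt _ (by omega)) _ (Nat.mod_lt _ (by omega)) hab
      have h4 : (j + a) ≡ (j + b) [MOD l] := h3
      have h5 := Nat.ModEq.add_left_cancel' j h4
      have h6 : a % l = b % l := h5
      rcases Nat.lt_or_ge a l with h7 | h7
      · rcases Nat.lt_or_ge b l with h8 | h8
        · rwa [Nat.mod_eq_of_lt h7, Nat.mod_eq_of_lt h8] at h6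
        · omega
      · omega
    · intro m hm
      rcases Nat.lt_or_ge m (l - (j - i)) with h | h
      · rw [Nat.mod_eq_of_lt (by omega)]
        obtain ⟨e, he⟩ := ed ((j + m) % l) (Nat.mod_lt _ (by omega))
        refine ⟨e, ?_⟩
        rw [he, ← mod_eq_nx (Nat.mod_lt _ (by omega)), Nat.mod_add_mod]
        rfl
      · have : m = l - (j - i) := by omega
        subst this
        obtain ⟨e, he⟩ := hadj
        refine ⟨e, ?_⟩
        rw [Nat.mod_self, he]
        have e1 : j + (l - (j - i)) = i + l := by omega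
        have e2 : (j + 0) % l = j := by rw [Nat.add_zero, Nat.mod_eq_of_lt hj]
        dsimp only
        rw [e1, e2, Nat.add_mod_right, Nat.mod_eq_of_lt (by omega)]

/-- An elementary tree over a cycle has at most `(Δ - 2) / T + 1` vertices. -/
theorem elem_size [Finite E] {G : MGraph V E} {k Δ T l n : ℕ} {y : ℕ → V} {f h : ℕ → E}
    {pr : ℕ → ℕ} {α β : Fin k} {c : E → Option (Fin k)} (hk : k = Δ + T) (hT : 1 ≤ T)
    (hdeg : ∀ u, G.degree u ≤ Δ) (hl : 3 ≤ l)
    (H : Tr G l n y f h pr α β c) (helem : Elem G l n y α β c) : n * T + 2 ≤ Δ := by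
  classical
  set S : Finset (Fin k) := (Finset.range (n + 1)).biUnion (fun j => G.ms c α β (y j)) with hS
  have hScard : (n + 1) * T ≤ S.card := by
    rw [hS, Finset.card_biUnion]
    · have h1 : ∑ _j ∈ Finset.range (n + 1), T ≤
          ∑ j ∈ Finset.range (n + 1), (G.ms c α β (y j)).card := by
        refine Finset.sum_le_sum fun j hj => ?_
        have hjn := Finset.mem_range.1 hj
        by_cases hjl : j < l
        · have := H.st.card_ms hl hdeg hjl
          omega
        · obtain ⟨h2, h3⟩ := helem.2 j (not_lt.1 hjl) (by omega)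
          have := Pool.Agent.W592.KG.DEG.card_ms' (hdeg (y j)) h2 h3
          omega
      rw [Finset.sum_const, Finset.card_range, smul_eq_mul] at h1
      exact h1
    · intro i' hi' j hj hij
      rw [Finset.mem_coe, Finset.mem_range] at hi' hj
      rw [Function.onFun, Finset.disjoint_left]
      intro a ha ha'
      rw [mem_ms] at ha ha'
      rcases Nat.lt_or_gt_of_ne hij with h1 | h1
      · exact helem.1 i' j h1 (by omega) a ha.1 ha.2.1 ha.2.2 ha'.2.2
      · exact helem.1 j i' h1 (by omega) a ha.1 ha.2.1 ha'.2.2 ha.2.2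
  have h2 : S ⊆ Finset.univ \ {α, β} := by
    intro a ha
    rw [Finset.mem_biUnion] at ha
    obtain ⟨i, _, ha⟩ := ha
    rw [mem_ms] at ha
    simp [ha.1, ha.2.1]
  have h3 := Finset.card_le_card h2
  rw [Finset.card_sdiff_of_subset (Finset.subset_univ _), Finset.card_univ, Fintype.card_fin,
    Finset.card_pair H.st.ne] at h3
  have h4 : (n + 1) * T = n * T + T := by ring
  omega

/-- The class of graphs all of whose odd cycles have at least `2 p + 1` vertices. -/
def OddCls (p : ℕ) (W : Prop) (V E : Type) (G : MGraph V E) : Prop :=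
  (∀ l, 3 ≤ l → l % 2 = 1 → G.HasCycle l → 2 * p + 1 ≤ l) ∧ (W ∨ Nat.card V ≤ 2 * p + 2)

theorem oddCls_del {p : ℕ} {W : Prop} (V E : Type) (G : MGraph V E) (e0 : E)
    (h : OddCls p W V E G) : OddCls p W V {e : E // e ≠ e0} (G.del e0) := by
  refine ⟨?_, h.2⟩
  intro l h3 ho ⟨v, h4, h5⟩
  refine h.1 l h3 ho ⟨v, h4, fun i hi => ?_⟩
  obtain ⟨e, he⟩ := h5 i hi
  exact ⟨e.1, he⟩

/-- All closed trees are cycles of length `2 p + 1`. -/
theorem closed_odd {Δ T p : ℕ} (hT : 1 ≤ T) :
    Closed Δ T (OddCls p (Δ ≤ 2 * T * (p + 1) + 1)) := by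
  intro V E _ _ G hG hdeg hP l y f α β c hl hodd H
  obtain ⟨hgir, hW⟩ := hP
  have hTRE : PartTRE := Pool.Agent.W992.KG.TRE.main Pool.Agent.W411.KG.main
  obtain ⟨n, y', h, pr, hln, hy', hTr, hcl⟩ := Pool.Agent.W733.KG.CLS.main hl H
  have hel := hTRE hG hdeg (by omega) hl hodd hln hTr
  have hev := Pool.Agent.W33.KG.EVN.main hl hodd hln hTr hel hcl
  have hn : n ≤ 2 * p + 1 := by
    rcases hW with hW | hW
    · have h1 := elem_size rfl hT hdeg hl hTr hel
      by_contra hcon
      push Not at hcon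
      have h2 : (2 * p + 2) * T ≤ n * T := Nat.mul_le_mul_right _ hcon
      have h3 : (2 * p + 2) * T = 2 * T * (p + 1) := by ring
      omega
    · have hinj : Function.Injective (fun i : Fin (n + 1) => y' i.1) := by
        intro i j hij
        exact Fin.ext (hTr.inj _ (by omega) _ (by omega) hij)
      have hc := Nat.card_le_card_of_injective _ hinj
      rw [Nat.card_eq_fintype_card, Fintype.card_fin] at hc
      omega
  have hlg : 2 * p + 1 ≤ l := hgir l hl hodd ⟨y, H.inj, fun i hi => ⟨f i, by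
    rw [mod_eq_nx hi, H.ed i hi]⟩⟩
  have hln' : l = n + 1 := by omega
  refine ⟨?_, ?_⟩
  · rintro a ⟨j, hj, hja⟩ i hi ⟨e, he, hca, hout⟩
    obtain ⟨i', hi', hends⟩ := hcl i (by omega) e a (by rw [hy' i hi]; exact he) hca
      ⟨j, by omega, by rw [hy' j hj]; exact hja⟩
    rw [hy' i hi, hy' i' (by omega)] at hends
    have h1 := hout i' (by omega) (by rw [hends]; exact Sym2.mem_mk_right _ _)
    rw [h1] at hends
    exact G.loopless e (by rw [hends]; exact Sym2.mk_isDiag_iff.mpr rfl)
  · have hed : ∀ i < l, ∃ e, G.ends e = s(y i, y (nx l i)) := fun i hi => ⟨f i, H.ed i hi⟩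
    have key : ∀ i j, i < j → j < l → (∃ e, G.ends e = s(y i, y j)) →
        j = nx l i ∨ i = nx l j := by
      intro i j hij hj hadj
      by_contra hcon
      push Not at hcon
      obtain ⟨h1, h2⟩ := hcon
      have h3 : i + 1 < j := by
        by_contra h
        apply h1
        unfold nx
        rw [if_neg (by omega)]
        omega
      have h4 : ¬ (i = 0 ∧ j + 1 = l) := by
        rintro ⟨h5, h6⟩
        apply h2
        unfold nx
        rw [if_pos h6, h5]
      obtain ⟨h5, h6⟩ := chord_two H.inj hed h3 hj hadj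
      rcases Nat.mod_two_eq_zero_or_one (j - i + 1) with h7 | h7
      · have := hgir _ (by omega) (by omega) h6
        omega
      · have := hgir _ (by omega) h7 h5
        omega
    intro i hi j hj hadj
    rcases Nat.lt_trichotomy i j with h | h | h
    · exact key i j h hj hadj
    · exfalso
      subst h
      obtain ⟨e, he⟩ := hadj
      exact G.loopless e (by rw [he]; exact Sym2.mk_isDiag_iff.mpr rfl)
    · obtain ⟨e, he⟩ := hadj
      rcases key j i h hi ⟨e, by rw [he, Sym2.eq_swap]⟩ with h1 | h1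
      · exact Or.inr h1
      · exact Or.inl h1

/-- Existence of an overfull ring of order `2 p + 1`. -/
theorem ring_exists [Finite V] [Finite E] (G : MGraph V E) {Δ T p : ℕ} (hT : 1 ≤ T)
    (hW : Δ ≤ 2 * T * (p + 1) + 1 ∨ Nat.card V ≤ 2 * p + 2)
    (hdeg : ∀ u, G.degree u ≤ Δ)
    (hgir : ∀ l, 3 ≤ l → l % 2 = 1 → G.HasCycle l → 2 * p + 1 ≤ l)
    (hG : ¬ G.Colorable (Δ + T)) :
    ∃ (W F : Type) (R : MGraph W F), IsRing R (2 * p + 1) ∧ IsSub R G ∧
      (Δ + T) * p + 1 ≤ Nat.card F := by
  classical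
  obtain ⟨l, y, S, hl, hodd, hinj, hS, hhit, hcard, hb⟩ :=
    core hT (OddCls p (Δ ≤ 2 * T * (p + 1) + 1)) (fun V E G e0 h => oddCls_del V E G e0 h)
      (closed_odd hT) _ E G rfl hdeg ⟨hgir, hW⟩ hG
  have hcyc : G.HasCycle l := ⟨y, hinj, fun i hi => by
    obtain ⟨e, _, he⟩ := hhit i hi
    exact ⟨e, by rw [mod_eq_nx hi, he]⟩⟩
  have hlg := hgir l hl hodd hcyc
  have hl2 : l = 2 * p + 1 := by
    rcases hW with hW | hW
    · by_contra hcon
      have h1 : 2 * p + 3 ≤ l := by omega
      have h2 : (2 * p + 3) * T ≤ l * T := Nat.mul_le_mul_right _ h1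
      have h3 : (2 * p + 3) * T = 2 * T * (p + 1) + T := by ring
      omega
    · have hinj' : Function.Injective (fun i : Fin l => y i.1) := by
        intro i j hij
        exact Fin.ext (hinj _ i.2 _ j.2 hij)
      have hc := Nat.card_le_card_of_injective _ hinj'
      rw [Nat.card_eq_fintype_card, Fintype.card_fin] at hc
      omega
  subst hl2
  obtain ⟨R, hR1, hR2⟩ := exists_ring G hl y hinj S hS hhit
  refine ⟨_, _, R, hR1, hR2, ?_⟩
  rw [show (2 * p + 1) / 2 = p by omega] at hcard
  rw [Nat.card_eq_fintype_card, Fintype.card_coe]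
  exact hcard

end Pool.Agent.R52.OddRing
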