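import Pool.Agent.R52.BridgeEx
import Pool.Agent.R52.OddRing

/-!
# Graphs attaining Goldberg's bound without the short ring: an ear
-/

set_option autoImplicit false

namespace Pool.Agent.R52.EarEx

open Pool.Agent.Results.MP_633d19_co.SmallDegree
open Pool.Agent.Results.MP_633d19_co.SmallDegree.MGraph
open Pool.Agent.R52.SteffenDefs
open Pool.Agent.R52.SteffenEx
open Pool.Agent.R52.Bridge
open Pool.Agent.R52.BridgeEx

section General

variable {V E W F : Type}

theorem sub_degree [Finite E] {R : MGraph W F} {G : MGraph V E} {φ : W → V} {ψ : F → E}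
    (hψ : Function.Injective ψ)
    (hends : ∀ e, G.ends (ψ e) = (R.ends e).map φ) (w : W) : R.degree w ≤ G.degree (φ w) := by
  unfold degree
  apply Nat.card_le_card_of_injective
    (fun x : {e // w ∈ R.ends e} => (⟨ψ x.1, by
      rw [hends]; exact Sym2.mem_map.2 ⟨w, x.2, rfl⟩⟩ : {e // φ w ∈ G.ends e}))
  intro x y h
  exact Subtype.ext (hψ (congrArg Subtype.val h))

theorem sub_cycle' {R : MGraph W F} {G : MGraph V E} {φ : W → V} {ψ : F → E}
    (hφ : Function.Injective φ)
    (hends : ∀ e, G.ends (ψ e) = (R.ends e).map φ) {l : ℕ} (h : R.HasCycle l) :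
    G.HasCycle l := by
  obtain ⟨u, h1, h2⟩ := h
  refine ⟨fun i => φ (u i), fun i hi j hj hij => h1 i hi j hj (hφ hij), fun i hi => ?_⟩
  obtain ⟨e, he⟩ := h2 i hi
  exact ⟨ψ e, by rw [hends, he, Sym2.map_mk]⟩

theorem addEdge_mult_le [Finite E] (G : MGraph V E) (a b : V) (hab : a ≠ b) (u w : V) :
    (addEdge G a b hab).mult u w ≤ G.mult u w + 1 := by
  classical
  unfold mult
  have h1 : Nat.card (Option {e : E // G.ends e = s(u, w)}) =
      Nat.card {e : E // G.ends e = s(u, w)} + 1 := by
    have := Fintype.ofFinite {e : E // G.ends e = s(u, w)}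
    rw [Nat.card_eq_fintype_card, Nat.card_eq_fintype_card, Fintype.card_option]
  rw [← h1]
  apply Nat.card_le_card_of_injective
    (fun x : {e : Option E // (addEdge G a b hab).ends e = s(u, w)} =>
      (match x with
        | ⟨none, _⟩ => none
        | ⟨some e, h⟩ => some ⟨e, h⟩ : Option {e : E // G.ends e = s(u, w)}))
  rintro ⟨_ | e, h⟩ ⟨_ | f, h'⟩ hxy
  · rfl
  · simp at hxy
  · simp at hxy
  · simp only [Option.some.injEq, Subtype.mk.injEq] at hxy
    subst hxy
    rfl

/-- Number of edges avoiding two vertices. -/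
theorem avoid_two [Finite E] {G : MGraph V E} {D M : ℕ} {a b : V} (hab : a ≠ b)
    (ha : G.degree a = D) (hb : G.degree b = D) (hm : G.mult a b ≤ M) (S : Finset E)
    (hS : ∀ e ∈ S, a ∉ G.ends e ∧ b ∉ G.ends e) : S.card + 2 * D ≤ Nat.card E + M := by
  classical
  have := Fintype.ofFinite E
  rw [degree_eq] at ha hb
  unfold mult at hm
  rw [Nat.card_eq_fintype_card, Fintype.card_subtype] at hm
  rw [Nat.card_eq_fintype_card, ← Finset.card_univ]
  set A := Finset.univ.filter (fun e => a ∈ G.ends e) with hA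
  set B := Finset.univ.filter (fun e => b ∈ G.ends e) with hB
  have h1 : A ∩ B ⊆ Finset.univ.filter (fun e => G.ends e = s(a, b)) := by
    intro e he
    rw [Finset.mem_inter, hA, hB, Finset.mem_filter, Finset.mem_filter] at he
    rw [Finset.mem_filter]
    exact ⟨Finset.mem_univ _, (Sym2.mem_and_mem_iff hab).1 ⟨he.1.2, he.2.2⟩⟩
  have h2 := Finset.card_le_card h1
  have h3 := Finset.card_union_add_card_inter A B
  have h4 : Disjoint S (A ∪ B) := by
    rw [Finset.disjoint_left]
    intro e he he'
    rw [Finset.mem_union, hA, hB, Finset.mem_filter, Finset.mem_filter] at he'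
    rcases he' with h | h
    · exact (hS e he).1 h.2
    · exact (hS e he).2 h.2
  have h5 := Finset.card_le_card (Finset.subset_univ (S ∪ (A ∪ B)))
  rw [Finset.card_union_of_disjoint h4] at h5
  omega

end General

/-- Odd cycles in a cycle of length `N` with a chord cutting off three edges. -/
theorem odd_cycle_len {N : ℕ} (hn : 3 ≤ N) (w : ZMod N → ℕ) (h03 : (0 : ZMod N) ≠ 3) {l : ℕ}
    (hl : 3 ≤ l) (hodd : l % 2 = 1) (h : (addEdge (fat N hn w) 0 3 h03).HasCycle l) :
    N ≤ l + 2 := by
  classical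
  obtain ⟨u, hinj, hadj⟩ := h
  have hd : ∀ i, ∃ d : ℤ, i < l → (u (nx l i) = u i + (d : ZMod N) ∧ d % 2 = 1 ∧
      (|d| ≤ 1 ∨ (|d| ≤ 3 ∧ s(u i, u (nx l i)) = s(0, 3)))) := by
    intro i
    by_cases hi : i < l
    · obtain ⟨e, he⟩ := hadj i hi
      rw [mod_eq_nx hi] at he
      rcases e with _ | ⟨x, a⟩
      · rw [addEdge_none] at he
        have he' := he
        rw [Sym2.eq_iff] at he'
        rcases he' with ⟨h1, h2⟩ | ⟨h1, h2⟩
        · refine ⟨3, fun _ => ⟨?_, by norm_num, Or.inr ⟨by norm_num, he.symm⟩⟩⟩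
          rw [← h1, ← h2]
          norm_num
        · refine ⟨-3, fun _ => ⟨?_, by norm_num, Or.inr ⟨by norm_num, he.symm⟩⟩⟩
          rw [← h1, ← h2]
          norm_num
      · rw [addEdge_some] at he
        have he' : s(x, x + 1) = s(u i, u (nx l i)) := he
        rw [Sym2.eq_iff] at he'
        rcases he' with ⟨h1, h2⟩ | ⟨h1, h2⟩
        · refine ⟨1, fun _ => ⟨?_, by norm_num, Or.inl (by norm_num)⟩⟩
          rw [← h1, ← h2]
          norm_num
        · refine ⟨-1, fun _ => ⟨?_, by norm_num, Or.inl (by norm_num)⟩⟩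
          rw [← h1, ← h2]
          norm_num
    · exact ⟨0, fun h => absurd h hi⟩
  choose d hd using hd
  -- total displacement
  have hsum0 : ∑ i ∈ Finset.range l, u (nx l i) = ∑ i ∈ Finset.range l, u i := by
    apply Finset.sum_bij (fun i _ => nx l i)
    · intro i hi
      exact Finset.mem_range.2 (nx_lt (Finset.mem_range.1 hi))
    · intro i _ j _ h
      exact nx_inj h
    · intro j hj
      rw [Finset.mem_range] at hj
      by_cases h0 : j = 0
      · exact ⟨l - 1, Finset.mem_range.2 (by omega), by unfold nx; rw [if_pos (by omega)]; omega⟩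
      · exact ⟨j - 1, Finset.mem_range.2 (by omega), by unfold nx; rw [if_neg (by omega)]; omega⟩
    · intro i _
      rfl
  have hsum1 : ((∑ i ∈ Finset.range l, d i : ℤ) : ZMod N) = 0 := by
    have h1 : ∑ i ∈ Finset.range l, u (nx l i) =
        ∑ i ∈ Finset.range l, (u i + (d i : ZMod N)) :=
      Finset.sum_congr rfl (fun i hi => (hd i (Finset.mem_range.1 hi)).1)
    rw [Finset.sum_add_distrib, hsum0] at h1
    have h2 : ∑ i ∈ Finset.range l, (d i : ZMod N) = 0 := by
      have : ∑ i ∈ Finset.range l, u i + ∑ i ∈ Finset.range l, (d i : ZMod N) =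
          ∑ i ∈ Finset.range l, u i + 0 := by rw [add_zero, ← h1]
      exact add_left_cancel this
    rw [Int.cast_sum]
    exact h2
  have hdvd : (N : ℤ) ∣ ∑ i ∈ Finset.range l, d i := (ZMod.intCast_zmod_eq_zero_iff_dvd _ N).1 hsum1
  have hpar : ∀ n ≤ l, (∑ i ∈ Finset.range n, d i) % 2 = ((n : ℕ) : ℤ) % 2 := by
    intro n
    induction n with
    | zero => intro _; simp
    | succ n ih =>
      intro hn'
      rw [Finset.sum_range_succ]
      have h1 := ih (by omega)
      have h2 := (hd n (by omega)).2.1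
      push_cast
      omega
  have hne : ∑ i ∈ Finset.range l, d i ≠ 0 := by
    intro h
    have := hpar l le_rfl
    rw [h] at this
    omega
  have habs : (N : ℤ) ≤ |∑ i ∈ Finset.range l, d i| :=
    Int.le_of_dvd (abs_pos.2 hne) ((dvd_abs _ _).2 hdvd)
  have hA : ∀ i, i ∈ (Finset.range l).filter (fun i => ¬ |d i| ≤ 1) →
      i < l ∧ s(u i, u (nx l i)) = s(0, 3) := by
    intro i hi
    rw [Finset.mem_filter, Finset.mem_range] at hi
    rcases (hd i hi.1).2.2 with h | h
    · exact absurd h hi.2
    · exact ⟨hi.1, h.2⟩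
  have hA1 : ((Finset.range l).filter (fun i => ¬ |d i| ≤ 1)).card ≤ 1 := by
    rw [Finset.card_le_one]
    intro i hi j hj
    obtain ⟨h1, h2⟩ := hA i hi
    obtain ⟨h3, h4⟩ := hA j hj
    exact pair_inj hl hinj i h1 j h3 (h2.trans h4.symm)
  have hbound : |∑ i ∈ Finset.range l, d i| ≤ (l : ℤ) + 2 := by
    calc |∑ i ∈ Finset.range l, d i| ≤ ∑ i ∈ Finset.range l, |d i| :=
          Finset.abs_sum_le_sum_abs _ _
      _ ≤ ∑ i ∈ Finset.range l, (1 + 2 * (if ¬ |d i| ≤ 1 then 1 else 0) : ℤ) := by
          apply Finset.sum_le_sum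
          intro i hi
          rw [Finset.mem_range] at hi
          by_cases h : |d i| ≤ 1
          · rw [if_neg (not_not.2 h)]
            omega
          · rw [if_pos h]
            rcases (hd i hi).2.2 with h' | h'
            · exact absurd h' h
            · have := h'.1
              omega
      _ = (l : ℤ) + 2 * ((Finset.range l).filter (fun i => ¬ |d i| ≤ 1)).card := by
          rw [Finset.sum_add_distrib, ← Finset.mul_sum, Finset.sum_const, Finset.card_range,
            Finset.card_filter]
          push_cast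
          simp
      _ ≤ (l : ℤ) + 2 := by
          have : (((Finset.range l).filter (fun i => ¬ |d i| ≤ 1)).card : ℤ) ≤ 1 := by
            exact_mod_cast hA1
          linarith
  have := habs.trans hbound
  omega

/-- The multiplicities. -/
def wt (N m : ℕ) (i : ZMod N) : ℕ :=
  if i.val = 0 then m - 1 else if i.val = 1 then m + 1 else if i.val = 2 then m - 1 else m

theorem val_three {N : ℕ} (hN : 3 < N) : (3 : ZMod N).val = 3 := by
  have h : ((3 : ℕ) : ZMod N).val = 3 := by
    rw [ZMod.val_natCast, Nat.mod_eq_of_lt hN]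
  simpa using h

theorem val_eq_iff {N a : ℕ} (ha : a < N) (v : ZMod N) : v.val = a ↔ v = (a : ZMod N) := by
  have : NeZero N := ⟨by omega⟩
  constructor
  · intro h
    rw [← h, ZMod.natCast_val, ZMod.cast_id', id]
  · rintro rfl
    rw [ZMod.val_natCast, Nat.mod_eq_of_lt ha]

theorem wt_sum {N m : ℕ} [NeZero N] (hN : 3 ≤ N) (hm : 1 ≤ m) : ∑ i, wt N m i + 1 = N * m := by
  have h1 : ∀ i : ZMod N, wt N m i + (if i = ((0 : ℕ) : ZMod N) then 1 else 0) +
      (if i = ((2 : ℕ) : ZMod N) then 1 else 0) =
      m + (if i = ((1 : ℕ) : ZMod N) then 1 else 0) := by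
    intro i
    have h0 := val_eq_iff (N := N) (a := 0) (by omega) i
    have h1 := val_eq_iff (N := N) (a := 1) (by omega) i
    have h2 := val_eq_iff (N := N) (a := 2) (by omega) i
    unfold wt
    simp only [← h0, ← h1, ← h2]
    split_ifs <;> omega
  have h3 : ∑ i : ZMod N, (wt N m i + (if i = ((0 : ℕ) : ZMod N) then 1 else 0) +
      (if i = ((2 : ℕ) : ZMod N) then 1 else 0)) =
      ∑ i : ZMod N, (m + (if i = ((1 : ℕ) : ZMod N) then 1 else 0)) :=
    Finset.sum_congr rfl (fun i _ => h1 i)
  rw [Finset.sum_add_distrib, Finset.sum_add_distrib, Finset.sum_add_distrib,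
    Finset.sum_ite_eq' Finset.univ ((0 : ℕ) : ZMod N),
    Finset.sum_ite_eq' Finset.univ ((1 : ℕ) : ZMod N),
    Finset.sum_ite_eq' Finset.univ ((2 : ℕ) : ZMod N),
    if_pos (Finset.mem_univ _), if_pos (Finset.mem_univ _), if_pos (Finset.mem_univ _),
    Finset.sum_const, Finset.card_univ, ZMod.card, smul_eq_mul] at h3
  omega

theorem bad_ear {p T m : ℕ} (hp : 2 ≤ p) (hT : 1 ≤ T) (hm : m = T * (p + 1) + 1)
    (hΔT : 2 * m < 2 * p * (T + 1) + 2) : Bad p (2 * m) T := by
  classical
  obtain ⟨N, hN⟩ : ∃ N, N = 2 * (p + 1) + 1 := ⟨_, rfl⟩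
  have hn : 3 ≤ N := by omega
  have : NeZero N := ⟨by omega⟩
  have hF : Fact (1 < N) := ⟨by omega⟩
  have h03 : (0 : ZMod N) ≠ 3 := by
    intro h
    have := congrArg ZMod.val h
    rw [ZMod.val_zero, val_three (by omega)] at this
    omega
  have hm2 : 2 ≤ m := by
    have : 1 ≤ T * (p + 1) := Nat.mul_pos (by omega) (by omega)
    omega
  set G₁ := fat N hn (wt N m) with hG₁
  set G := addEdge G₁ 0 3 h03 with hG
  have hwle : ∀ i, wt N m i ≤ m + 1 := by
    intro i
    unfold wt
    split_ifs <;> omega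
  have hw1 : ∀ i, 1 ≤ wt N m i := by
    intro i
    unfold wt
    split_ifs <;> omega
  have hdeg : ∀ u, G.degree u = 2 * m := by
    intro u
    rw [hG, addEdge_degree, hG₁, fat_degree]
    have h3 : u = 3 ↔ u.val = 3 := by
      rw [val_eq_iff (by omega : 3 < N)]
      norm_num
    by_cases hu : u = 0
    · subst hu
      rw [if_pos (Or.inl rfl)]
      have h1 : (0 : ZMod N).val = 0 := ZMod.val_zero
      have h2 := val_neg_one' (n := N) (by omega)
      unfold wt
      rw [h1, h2, if_pos rfl, if_neg (by omega), if_neg (by omega), if_neg (by omega)]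
      omega
    · have h1 := val_sub_one u hu
      have h2 := ZMod.val_lt u
      by_cases hu3 : u = 3
      · rw [if_pos (Or.inr hu3)]
        have h4 := h3.1 hu3
        unfold wt
        rw [h4, if_neg (by omega), if_neg (by omega), if_neg (by omega), if_neg (by omega),
          if_neg (by omega), if_pos (by omega)]
        omega
      · rw [if_neg (by tauto)]
        have h4 : u.val ≠ 3 := fun h => hu3 (h3.2 h)
        unfold wt
        split_ifs <;> omega
  have hcard : Nat.card (Option ((i : ZMod N) × Fin (wt N m i))) = N * m := by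
    have h1 : Nat.card (Option ((i : ZMod N) × Fin (wt N m i))) =
        Nat.card ((i : ZMod N) × Fin (wt N m i)) + 1 := by
      rw [Nat.card_eq_fintype_card, Nat.card_eq_fintype_card, Fintype.card_option]
    rw [h1, fat_card, wt_sum hn (by omega)]
  have hcyc : ∀ l, 3 ≤ l → l % 2 = 1 → G.HasCycle l → 2 * p + 1 ≤ l := by
    intro l hl ho h
    have := odd_cycle_len hn (wt N m) h03 hl ho h
    omega
  have hodd : HasOddGirth G (2 * p + 1) := by
    refine ⟨⟨by omega, by omega, ?_⟩, fun l ⟨hl, ho, h⟩ => hcyc l hl ho h⟩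
    refine ⟨fun i => if i = 0 then 0 else ((i + 2 : ℕ) : ZMod N), ?_, ?_⟩
    · intro i hi j hj h
      dsimp only at h
      have hval : ∀ i < 2 * p + 1, i ≠ 0 → (((i + 2 : ℕ) : ZMod N)).val = i + 2 := by
        intro i hi _
        rw [ZMod.val_natCast, Nat.mod_eq_of_lt (by omega)]
      split_ifs at h with h1 h2 h2
      · omega
      · exfalso
        have := congrArg ZMod.val h
        rw [hval j hj h2, ZMod.val_zero] at this
        omega
      · exfalso
        have := congrArg ZMod.val h
        rw [hval i hi h1, ZMod.val_zero] at this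
        omega
      · have := congrArg ZMod.val h
        rw [hval i hi h1, hval j hj h2] at this
        omega
    · intro i hi
      dsimp only
      by_cases h0 : i = 0
      · subst h0
        refine ⟨none, ?_⟩
        rw [addEdge_none, if_pos rfl, Nat.mod_eq_of_lt (by omega), if_neg (by omega)]
        norm_num
      · rw [if_neg h0]
        refine ⟨some ⟨((i + 2 : ℕ) : ZMod N), ⟨0, hw1 _⟩⟩, ?_⟩
        rw [addEdge_some]
        show s(((i + 2 : ℕ) : ZMod N), ((i + 2 : ℕ) : ZMod N) + 1) = _
        by_cases hlast : i = 2 * p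
        · subst hlast
          rw [Nat.mod_self, if_pos rfl]
          have : ((2 * p + 2 : ℕ) : ZMod N) + 1 = 0 := by
            have h1 : ((2 * p + 2 : ℕ) : ZMod N) + 1 = ((N : ℕ) : ZMod N) := by
              rw [hN]; push_cast; ring
            rw [h1, ZMod.natCast_self]
          rw [this]
        · rw [Nat.mod_eq_of_lt (by omega), if_neg (by omega)]
          have h9 : ((i + 2 : ℕ) : ZMod N) + 1 = ((i + 1 + 2 : ℕ) : ZMod N) := by
            push_cast; ring
          rw [h9]
  have hnot : ¬ G.Colorable (2 * m + T) := by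
    intro h
    have h3 := G.overfull h (p := p + 1) (by rw [Nat.card_eq_fintype_card, ZMod.card, hN])
    rw [hcard, hN] at h3
    have h5 : (2 * (p + 1) + 1) * m = 2 * m * (p + 1) + m := by ring
    have h6 : (2 * m + T) * (p + 1) = 2 * m * (p + 1) + T * (p + 1) := by ring
    omega
  refine ⟨_, _, inferInstance, inferInstance, G, addEdge_conn _ _ _ (fat_conn hn _ hw1),
    ⟨fun u => (hdeg u).le, ⟨0, hdeg 0⟩⟩, hodd, ⟨?_, ?_⟩, ?_⟩
  · apply goldberg (Δ := 2 * m) (p := p) (by omega) ?_ _ _ G rfl (fun u => (hdeg u).le) hcyc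
    have : 2 * m + 1 + T - 2 * m = T + 1 := by omega
    rw [this]
    exact hΔT
  · intro k hk
    by_contra hcon
    exact hnot (Colorable.mono hk (by omega))
  · rintro ⟨W, F, R, hR1, hR2, hR3⟩
    obtain ⟨-, v, -⟩ := id hR1
    obtain ⟨φ, ψ, hφ, hψ, hends⟩ := hR2
    have hWf : Finite W := Finite.of_equiv _ v
    have hFf : Finite F := Finite.of_injective ψ hψ
    have hWc : Nat.card W = 2 * p + 1 := by
      rw [← Nat.card_congr v, Nat.card_fin]
    have hRn : ¬ R.Colorable (2 * m + T) := by
      intro h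
      have := hR3.2 h
      omega
    obtain ⟨W', F', R', -, hR', hcF⟩ := Pool.Agent.R52.OddRing.ring_exists R hT
      (Or.inr (by omega : Nat.card W ≤ 2 * p + 2))
      (fun w => (sub_degree hψ hends w).trans (hdeg _).le)
      (fun l hl ho h => hcyc l hl ho (sub_cycle' hφ hends h)) hRn
    obtain ⟨φ', ψ', hφ', hψ', -⟩ := hR'
    have hcF2 : Nat.card F' ≤ Nat.card F := Nat.card_le_card_of_injective ψ' hψ'
    -- two missing vertices
    have := Fintype.ofFinite W
    have := Fintype.ofFinite F
    have hcompl : ((Finset.univ.image φ)ᶜ : Finset (ZMod N)).card = 2 := by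
      rw [Finset.card_compl, ZMod.card, Finset.card_image_of_injective _ hφ, Finset.card_univ,
        ← Nat.card_eq_fintype_card, hWc]
      omega
    obtain ⟨a, b, hab, hset⟩ := Finset.card_eq_two.1 hcompl
    have ha : a ∉ Finset.univ.image φ := by
      rw [← Finset.mem_compl, hset]; simp
    have hb : b ∉ Finset.univ.image φ := by
      rw [← Finset.mem_compl, hset]; simp
    have hmul : G.mult a b ≤ m + 2 := by
      have h1 := addEdge_mult_le G₁ 0 3 h03 a b
      have h2 := fat_mult_le hn (wt N m) hwle a b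
      exact h1.trans (by rw [hG₁]; omega)
    have h7 := avoid_two hab (hdeg a) (hdeg b) hmul (Finset.univ.image ψ) (by
      intro e he
      obtain ⟨f, -, rfl⟩ := Finset.mem_image.1 he
      rw [hends]
      constructor
      · intro h
        obtain ⟨x, _, hx⟩ := Sym2.mem_map.1 h
        exact ha (Finset.mem_image.2 ⟨x, Finset.mem_univ _, hx⟩)
      · intro h
        obtain ⟨x, _, hx⟩ := Sym2.mem_map.1 h
        exact hb (Finset.mem_image.2 ⟨x, Finset.mem_univ _, hx⟩))
    rw [Finset.card_image_of_injective _ hψ, Finset.card_univ, ← Nat.card_eq_fintype_card,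
      hcard] at h7
    rw [hN] at h7
    have h8 : (2 * (p + 1) + 1) * m = 2 * m * p + 3 * m := by ring
    have h9 : (2 * m + T) * p = 2 * m * p + T * p := by ring
    have h10 : 1 * 2 ≤ T * p := Nat.mul_le_mul hT hp
    omega

end Pool.Agent.R52.EarEx
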