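import Mathlib

namespace R52.LogOzone

universe u v

variable {F : Type u} {K : Type v} [CommRing F] [CommRing K] [Algebra F K]

theorem derivation_prod {ι : Type*} [DecidableEq ι] (D : Derivation F K K) (s : Finset ι)
    (f : ι → K) :
    D (∏ i ∈ s, f i) = ∑ i ∈ s, ∏ j ∈ s, Function.update f i (D (f i)) j := by
  induction s using Finset.induction_on with
  | empty => simp
  | insert a s ha ih =>
    rw [Finset.prod_insert ha, D.leibniz, ih, Finset.sum_insert ha, Finset.prod_insert ha,
      Function.update_self]
    have h1 : ∏ x ∈ s, Function.update f a (D (f a)) x = ∏ x ∈ s, f x := by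
      refine Finset.prod_congr rfl fun x hx => ?_
      rw [Function.update_of_ne (by rintro rfl; exact ha hx)]
    rw [h1, smul_eq_mul, smul_eq_mul, add_comm, Finset.mul_sum, mul_comm]
    congr 1
    refine Finset.sum_congr rfl fun i hi => ?_
    rw [Finset.prod_insert ha, Function.update_of_ne (by rintro rfl; exact ha hi)]

theorem derivation_det {m : Type*} [Fintype m] [DecidableEq m] (D : Derivation F K K)
    (M : Matrix m m K) : D M.det = (M.adjugate * M.map D).trace := by
  rw [Matrix.det_apply']
  simp only [map_sum, Matrix.trace, Matrix.diag_apply, Matrix.mul_apply, Matrix.map_apply]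
  have h1 : ∀ i, ∑ j, M.adjugate i j * D (M j i) = (M.updateCol i (fun j => D (M j i))).det := by
    intro i
    rw [← Matrix.cramer_apply, Matrix.cramer_eq_adjugate_mulVec]
    rfl
  simp only [h1, Matrix.det_apply']
  rw [Finset.sum_comm]
  refine Finset.sum_congr rfl fun σ _ => ?_
  have h2 : D (((Equiv.Perm.sign σ : ℤˣ) : ℤ) : K) = 0 := D.map_intCast _
  rw [D.leibniz, h2, smul_zero, add_zero, smul_eq_mul, derivation_prod, Finset.mul_sum]
  refine Finset.sum_congr rfl fun i _ => ?_
  congr 1
  refine Finset.prod_congr rfl fun j _ => ?_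
  rw [Matrix.updateCol_apply, Function.update_apply]
  by_cases h : j = i
  · subst h; simp
  · simp [h]

end R52.LogOzone
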