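import Mathlib

namespace R52.LogOzone

universe u v

open scoped IsMulCommutative in
/-- For commuting endomorphisms of a finite-dimensional space with a common nonzero kernel vector
there is a nonzero functional killing all the images. -/
theorem exists_functional {F : Type u} {V : Type v} [Field F] [AddCommGroup V] [Module F V]
    [FiniteDimensional F V] {ι : Type*} (E : ι → Module.End F V)
    (hc : ∀ i j, E i * E j = E j * E i) (v : V) (hv : v ≠ 0) (hk : ∀ i, E i v = 0) :
    ∃ θ : V →ₗ[F] F, θ ≠ 0 ∧ ∀ i w, θ (E i w) = 0 := by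
  classical
  have hcomm : ∀ a ∈ Set.range E, ∀ b ∈ Set.range E, a * b = b * a := by
    rintro _ ⟨i, rfl⟩ _ ⟨j, rfl⟩; exact hc i j
  have : IsMulCommutative (Algebra.adjoin F (Set.range E)) :=
    Algebra.isMulCommutative_adjoin F hcomm
  let A := Algebra.adjoin F (Set.range E)
  let e : ι → A := fun i => ⟨E i, Algebra.subset_adjoin ⟨i, rfl⟩⟩
  let I : Ideal A := Ideal.span (Set.range e)
  have hI : ∀ r ∈ I, r • v = 0 := by
    intro r hr
    refine Submodule.span_induction (p := fun r _ => r • v = 0) ?_ ?_ ?_ ?_ hr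
    · rintro _ ⟨i, rfl⟩; exact hk i
    · simp
    · intro x y _ _ hx hy; rw [add_smul, hx, hy, add_zero]
    · intro a x _ hx; rw [smul_eq_mul, mul_smul, hx, smul_zero]
  have hne : I • (⊤ : Submodule A V) ≠ ⊤ := by
    intro h
    have : Module.Finite A V := Module.Finite.of_restrictScalars_finite F A V
    obtain ⟨r, hr, hr0⟩ := Submodule.exists_sub_one_mem_and_smul_eq_zero_of_fg_of_le_smul I
      (⊤ : Submodule A V) Module.Finite.fg_top h.ge
    have h1 := hI _ hr
    rw [sub_smul, hr0 v trivial, one_smul, zero_sub, neg_eq_zero] at h1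
    exact hv h1
  let W : Submodule F V := (I • (⊤ : Submodule A V)).restrictScalars F
  have hW : W ≠ ⊤ := by
    intro h
    apply hne
    rw [eq_top_iff]
    intro x _
    have : x ∈ W := h ▸ Submodule.mem_top
    exact this
  obtain ⟨θ, hθ, hθW⟩ := Submodule.exists_le_ker_of_lt_top W (lt_top_iff_ne_top.mpr hW)
  refine ⟨θ, hθ, fun i w => ?_⟩
  have : E i w ∈ W := by
    have : e i • w ∈ I • (⊤ : Submodule A V) :=
      Submodule.smul_mem_smul (Ideal.subset_span ⟨i, rfl⟩) trivial
    exact this
  exact LinearMap.mem_ker.mp (hθW this)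

end R52.LogOzone
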