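import Mathlib

namespace R52.LogOzone

universe u v

/-- symmetric times alternating has zero trace -/
theorem sum_symm_alt {K : Type u} [CommRing K] {ι : Type v} [Fintype ι] [DecidableEq ι]
    (A S : ι → ι → K) (hA : ∀ i j, A i j = A j i) (hS : ∀ i j, S i j = - S j i)
    (hS0 : ∀ i, S i i = 0) : ∑ i, ∑ j, A i j * S i j = 0 := by
  rw [← Fintype.sum_prod_type']
  refine Finset.sum_involution (fun x _ => (x.2, x.1)) ?_ ?_ (by simp) (by simp)
  · rintro ⟨i, j⟩ _
    simp only
    rw [hS i j, hA i j]; ring
  · rintro ⟨i, j⟩ _ h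
    simp only [ne_eq, Prod.mk.injEq, not_and]
    intro h1 h2
    subst h1
    simp [hS0] at h

/-- An alternating form has a basis in which its Gram matrix has entries `0, 1, -1`. -/
theorem exists_basis_alt {K : Type u} [Field K] (n : ℕ) :
    ∀ (V : Type v) [AddCommGroup V] [Module K V] [FiniteDimensional K V]
      (ω : V →ₗ[K] V →ₗ[K] K), (∀ v, ω v v = 0) → Module.finrank K V = n →
      ∃ (ι : Type) (_ : Fintype ι) (_ : DecidableEq ι) (b : Module.Basis ι K V),
        ∀ i j, ω (b i) (b j) = 0 ∨ ω (b i) (b j) = 1 ∨ ω (b i) (b j) = -1 := by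
  induction n using Nat.strong_induction_on with
  | _ n IH =>
    intro V _ _ _ ω hω hn
    by_cases h0 : ∀ v w, ω v w = 0
    · exact ⟨_, inferInstance, inferInstance, Module.finBasis K V, fun i j => Or.inl (h0 _ _)⟩
    push Not at h0
    obtain ⟨e, w, hew⟩ := h0
    have hanti : ∀ v w, ω v w = - ω w v := by
      intro v w
      have h := hω (v + w)
      simp only [map_add, LinearMap.add_apply, hω, zero_add, add_zero] at h
      exact eq_neg_of_add_eq_zero_right h
    obtain ⟨f, hef⟩ : ∃ f, ω e f = 1 := ⟨(ω e w)⁻¹ • w, by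
      rw [map_smul, smul_eq_mul, inv_mul_cancel₀ hew]⟩
    have hfe : ω f e = -1 := by rw [hanti, hef]
    let g : V →ₗ[K] K × K := (ω e).prod (ω f)
    let s : K × K →ₗ[K] V := (LinearMap.toSpanSingleton K V f).coprod
      (LinearMap.toSpanSingleton K V (-e))
    have hs : ∀ a b, s (a, b) = a • f + b • (-e) := fun a b => by simp [s]
    have hg : ∀ v, g v = (ω e v, ω f v) := fun v => rfl
    have hgs : ∀ x, g (s x) = x := by
      rintro ⟨a, b⟩
      rw [hs, hg]
      simp [hef, hfe, hω]
    let U : Submodule K V := LinearMap.ker g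
    let φ : ((K × K) × U) →ₗ[K] V := s.coprod U.subtype
    have hφ : ∀ x u, φ (x, u) = s x + u := fun x u => by simp [φ]
    have hbij : Function.Bijective φ := by
      constructor
      · rw [← LinearMap.ker_eq_bot, LinearMap.ker_eq_bot']
        rintro ⟨x, u⟩ h
        rw [hφ] at h
        have h1 : g (s x + u) = 0 := by rw [h, map_zero]
        have hu : g u = 0 := u.2
        rw [map_add, hgs, hu, add_zero] at h1
        subst h1
        rw [map_zero, zero_add] at h
        simp [Subtype.ext_iff, h]
      · intro v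
        refine ⟨(g v, ⟨v - s (g v), ?_⟩), ?_⟩
        · change g _ = 0
          rw [map_sub, hgs, sub_self]
        · rw [hφ]; simp
    let Φ := LinearEquiv.ofBijective φ hbij
    have hdim : Module.finrank K U < n := by
      have h1 := Φ.finrank_eq
      rw [Module.finrank_prod, Module.finrank_prod, hn, Module.finrank_self] at h1
      omega
    obtain ⟨ι, hι, hι', c, hc⟩ := IH _ hdim U (ω.compl₁₂ U.subtype U.subtype)
      (fun v => hω _) rfl
    let B : Module.Basis ((Unit ⊕ Unit) ⊕ ι) K V :=
      (((Module.Basis.singleton Unit K).prod (Module.Basis.singleton Unit K)).prod c).map Φ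
    have hB1 : ∀ t, B (Sum.inl (Sum.inl t)) = f := by
      intro t
      have : B (Sum.inl (Sum.inl t)) = φ ((1, 0), 0) := by
        simp [B, Φ, Module.Basis.prod_apply]
      rw [this, hφ, hs]; simp
    have hB2 : ∀ t, B (Sum.inl (Sum.inr t)) = -e := by
      intro t
      have : B (Sum.inl (Sum.inr t)) = φ ((0, 1), 0) := by
        simp [B, Φ, Module.Basis.prod_apply]
      rw [this, hφ, hs]; simp
    have hB3 : ∀ t, B (Sum.inr t) = c t := by
      intro t
      have : B (Sum.inr t) = φ (0, c t) := by
        simp [B, Φ, Module.Basis.prod_apply]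
      rw [this, hφ]; simp
    have hU : ∀ u : U, ω e u = 0 ∧ ω f u = 0 := by
      intro u
      have := u.2
      change g u = 0 at this
      rw [hg, Prod.mk_eq_zero] at this
      exact this
    refine ⟨_, inferInstance, inferInstance, B, ?_⟩
    rintro ((i | i) | i) ((j | j) | j)
    · rw [hB1, hω]; simp
    · rw [hB1, hB2, map_neg, hfe]; simp
    · rw [hB1, hB3, (hU _).2]; simp
    · rw [hB1, hB2, map_neg, LinearMap.neg_apply, hef]; simp
    · rw [hB2, hω]; simp
    · rw [hB2, hB3, map_neg, LinearMap.neg_apply, (hU _).1]; simp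
    · rw [hB1, hB3, hanti, (hU _).2]; simp
    · rw [hB2, hB3, hanti, map_neg, LinearMap.neg_apply, (hU _).1]; simp
    · rw [hB3, hB3]; exact hc i j

/-- An alternating matrix is congruent to a matrix with entries `0, 1, -1`. -/
theorem exists_congr {K : Type u} [Field K] {m : Type v} [Fintype m] [DecidableEq m]
    (P : Matrix m m K) (h0 : ∀ i, P i i = 0) (h1 : ∀ i j, P i j = - P j i) :
    ∃ M : Matrix m m K, M.det ≠ 0 ∧ ∀ i j, (M * P * M.transpose) i j = 0 ∨
      (M * P * M.transpose) i j = 1 ∨ (M * P * M.transpose) i j = -1 := by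
  let ω : (m → K) →ₗ[K] (m → K) →ₗ[K] K := Matrix.toLinearMap₂' K P
  have hω' : ∀ v w, ω v w = ∑ i, ∑ j, v i * w j * P i j := by
    intro v w
    simp only [ω, Matrix.toLinearMap₂'_apply]
    simp only [smul_eq_mul, mul_assoc]
  have hω : ∀ v, ω v v = 0 := by
    intro v
    rw [hω']
    exact sum_symm_alt (fun i j => v i * v j) P (fun i j => mul_comm _ _) h1 h0
  obtain ⟨ι, _, _, b, hb⟩ := exists_basis_alt (K := K) _ (m → K) ω hω rfl
  have hcard : Fintype.card ι = Fintype.card m := by
    rw [← Module.finrank_eq_card_basis b, Module.finrank_fintype_fun_eq_card]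
  let e : ι ≃ m := Fintype.equivOfCardEq hcard
  let b' := b.reindex e
  let M : Matrix m m K := fun i => b' i
  have hM : ∀ i j, (M * P * M.transpose) i j = ω (b' i) (b' j) := by
    intro i j
    rw [hω', Matrix.mul_apply]
    simp only [Matrix.mul_apply, Matrix.transpose_apply, Finset.sum_mul]
    rw [Finset.sum_comm]
    refine Finset.sum_congr rfl fun k _ => Finset.sum_congr rfl fun l _ => ?_
    simp only [M]; ring
  refine ⟨M, ?_, ?_⟩
  · have := b'.linearIndependent
    have h2 : LinearIndependent K M.row := this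
    rw [Matrix.linearIndependent_rows_iff_isUnit, Matrix.isUnit_iff_isUnit_det] at h2
    exact h2.ne_zero
  · intro i j
    rw [hM]
    simp only [b', Module.Basis.reindex_apply]
    exact hb _ _

end R52.LogOzone
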