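import Mathlib
import Pool.Agent.R52.LOzNak
import Pool.Agent.R52.LOzSym
import Pool.Agent.R52.LOzDet

namespace R52.LogOzone

universe u v

open Matrix

theorem alt_congr {K : Type u} [CommRing K] {m : Type v} [Fintype m] [DecidableEq m]
    (P N : Matrix m m K) (h0 : ∀ i, P i i = 0) (h1 : ∀ i j, P i j = - P j i) :
    (∀ i, (N * P * Nᵀ) i i = 0) ∧ (∀ i j, (N * P * Nᵀ) i j = - (N * P * Nᵀ) j i) := by
  constructor
  · intro i
    have h := sum_symm_alt (fun k l => N i k * N i l) P (fun k l => mul_comm _ _) h1 h0
    rw [← h, Matrix.mul_apply]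
    simp only [Matrix.mul_apply, Matrix.transpose_apply, Finset.sum_mul]
    rw [Finset.sum_comm]
    refine Finset.sum_congr rfl fun k _ => Finset.sum_congr rfl fun l _ => ?_
    ring
  · have hP : Pᵀ = -P := by
      ext i j
      rw [Matrix.transpose_apply, Matrix.neg_apply, h1 j i]
    have h2 : (N * P * Nᵀ)ᵀ = -(N * P * Nᵀ) := by
      rw [Matrix.transpose_mul, Matrix.transpose_mul, Matrix.transpose_transpose, hP]
      simp [Matrix.mul_assoc]
    intro i j
    have := congrFun (congrFun h2 j) i
    simpa using this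

variable {L : Type u} {K : Type v} [Field L] [Field K] [Algebra L K] 

theorem map_mul_der {m : Type*} [Fintype m] (D : Derivation L K K) (A B : Matrix m m K) :
    (A * B).map D = A.map D * B + A * B.map D := by
  ext i j
  simp only [Matrix.map_apply, Matrix.mul_apply, Matrix.add_apply, map_sum, D.leibniz,
    smul_eq_mul, Finset.sum_add_distrib]
  rw [add_comm]
  congr 1
  exact Finset.sum_congr rfl fun k _ => mul_comm _ _

theorem core [FiniteDimensional L K]
    (X : K →ₗ[L] Derivation L K K) (alt : ∀ a, X a a = 0)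
    (jac : ∀ a b, ⁅X a, X b⁆ = X (X a b)) :
    ∃ Λ : K →ₗ[L] L, Λ ≠ 0 ∧ ∀ a b, Λ (X a b) = 0 := by
  classical
  have anti : ∀ a b, X a b = - X b a := by
    intro a b
    have h := alt (a + b)
    simp only [map_add, Derivation.add_apply, alt, zero_add, add_zero] at h
    first
      | exact eq_neg_of_add_eq_zero_left h
      | exact eq_neg_of_add_eq_zero_right h
  let b := Module.finBasis L K
  obtain ⟨κ, α, hα, hspan, hli⟩ := exists_linearIndependent' K (fun i => X (b i))
  have : Finite κ := Finite.of_injective α hα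
  have : Fintype κ := Fintype.ofFinite κ
  let y : κ → K := fun i => b (α i)
  let H : Submodule K (Derivation L K K) := Submodule.span K (Set.range fun j => X (y j))
  have hli' : LinearIndependent K fun j => X (y j) := hli
  have hHX : ∀ c, X c ∈ H := by
    intro c
    have hH : H = Submodule.span K (Set.range fun i => X (b i)) := hspan
    rw [hH, ← b.sum_repr c, map_sum]
    refine Submodule.sum_mem _ fun i _ => ?_
    rw [map_smul]
    exact Submodule.smul_of_tower_mem _ _ (Submodule.subset_span ⟨i, rfl⟩)
  have hHfun : ∀ D ∈ H, ∃ c : κ → K, D = ∑ j, c j • X (y j) := by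
    intro D hD
    obtain ⟨c, hc⟩ := (Submodule.mem_span_range_iff_exists_fun K).mp hD
    exact ⟨c, hc.symm⟩
  have happ : ∀ (c : κ → K) (z : K), (∑ j, c j • X (y j)) z = ∑ j, c j * X (y j) z := by
    intro c z
    rw [← Derivation.coeFnAddMonoidHom_apply, map_sum, Finset.sum_apply]
    rfl
  have hH0 : ∀ D ∈ H, (∀ k, D (y k) = 0) → D = 0 := by
    intro D hD hk
    obtain ⟨c, rfl⟩ := hHfun D hD
    ext z
    obtain ⟨d, hd⟩ := hHfun _ (hHX z)
    rw [happ]
    have h1 : ∀ j, X (y j) z = - ∑ l, d l * X (y l) (y j) := by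
      intro j
      rw [anti, hd, happ]
    have h2 : ∑ j, c j * X (y j) z = ∑ l, d l * ∑ j, c j * X (y j) (y l) := by
      simp only [h1, Finset.mul_sum, mul_neg]
      have : ∀ i, -∑ k, c i * (d k * X (y k) (y i)) = ∑ k, c i * (d k * X (y i) (y k)) := by
        intro i
        rw [← Finset.sum_neg_distrib]
        refine Finset.sum_congr rfl fun k _ => ?_
        rw [anti (y i) (y k)]; ring
      rw [Finset.sum_congr rfl fun i _ => this i, Finset.sum_comm]
      refine Finset.sum_congr rfl fun k _ => Finset.sum_congr rfl fun l _ => ?_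
      ring
    rw [h2]
    have h3 : ∀ l, ∑ j, c j * X (y j) (y l) = 0 := fun l => by rw [← happ]; exact hk l
    simp [h3]
  let P : Matrix κ κ K := fun i j => X (y i) (y j)
  have hP0 : ∀ i, P i i = 0 := fun i => alt _
  have hP1 : ∀ i j, P i j = - P j i := fun i j => anti _ _
  have hdet : P.det ≠ 0 := by
    intro h
    obtain ⟨v, hv, hv'⟩ := Matrix.exists_vecMul_eq_zero_iff.mpr h
    have h1 : (∑ j, v j • X (y j)) = 0 := by
      apply hH0
      · exact Submodule.sum_mem _ fun i _ =>
          Submodule.smul_mem _ _ (Submodule.subset_span ⟨i, rfl⟩)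
      · intro k
        rw [happ]
        exact congrFun hv' k
    exact hv (funext fun i => (Fintype.linearIndependent_iff.mp hli') v h1 i)
  have hPu : IsUnit P.det := isUnit_iff_ne_zero.mpr hdet
  let E : κ → Derivation L K K := fun i => ∑ j, P⁻¹ i j • X (y j)
  have hEH : ∀ i, E i ∈ H := fun i => Submodule.sum_mem _ fun i _ =>
          Submodule.smul_mem _ _ (Submodule.subset_span ⟨i, rfl⟩)
  have hE : ∀ i k, E i (y k) = (1 : Matrix κ κ K) i k := by
    intro i k
    rw [← Matrix.nonsing_inv_mul P hPu, Matrix.mul_apply]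
    exact happ _ _
  have hHcl : ∀ D ∈ H, ∀ D' ∈ H, ⁅D, D'⁆ ∈ H := by
    intro D hD D' hD'
    refine Submodule.span_induction (p := fun D' _ => ⁅D, D'⁆ ∈ H) ?_ ?_ ?_ ?_ hD'
    · rintro _ ⟨j, rfl⟩
      refine Submodule.span_induction (p := fun D _ => ⁅D, X (y j)⁆ ∈ H) ?_ ?_ ?_ ?_ hD
      · rintro _ ⟨i, rfl⟩
        change ⁅X (y i), X (y j)⁆ ∈ H
        rw [jac]
        exact hHX _
      · change ⁅(0 : Derivation L K K), X (y j)⁆ ∈ H
        rw [zero_lie]; exact Submodule.zero_mem _
      · intro D1 D2 _ _ h1 h2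
        rw [add_lie]; exact Submodule.add_mem _ h1 h2
      · intro a D1 hD1 h1
        have : ⁅a • D1, X (y j)⁆ = a • ⁅D1, X (y j)⁆ - (X (y j) a) • D1 := by
          ext z
          simp only [Derivation.commutator_apply, Derivation.smul_apply, Derivation.sub_apply,
            Derivation.leibniz, smul_eq_mul]
          ring
        rw [this]
        exact Submodule.sub_mem _ (Submodule.smul_mem _ _ h1) (Submodule.smul_mem _ _ hD1)
    · rw [lie_zero]; exact Submodule.zero_mem _
    · intro D1 D2 _ _ h1 h2
      rw [lie_add]; exact Submodule.add_mem _ h1 h2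
    · intro a D1 hD1 h1
      have : ⁅D, a • D1⁆ = a • ⁅D, D1⁆ + (D a) • D1 := by
        ext z
        simp only [Derivation.commutator_apply, Derivation.smul_apply, Derivation.add_apply,
          Derivation.leibniz, smul_eq_mul]
        ring
      rw [this]
      exact Submodule.add_mem _ (Submodule.smul_mem _ _ h1) (Submodule.smul_mem _ _ hD1)
  have hcomm : ∀ i j, ⁅E i, E j⁆ = 0 := by
    intro i j
    apply hH0 _ (hHcl _ (hEH i) _ (hEH j))
    intro k
    rw [Derivation.commutator_apply, hE, hE]
    simp only [Matrix.one_apply]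
    split_ifs <;> simp
  obtain ⟨Θ, hΘ0, hΘ⟩ := exists_functional (F := L) (V := K)
    (fun i => ((E i : Derivation L K K) : K →ₗ[L] K)) (by
      intro i j
      ext z
      have := Derivation.congr_fun (hcomm i j) z
      rw [Derivation.commutator_apply, Derivation.zero_apply, sub_eq_zero] at this
      exact this) 1 one_ne_zero (fun i => (E i).map_one_eq_zero)
  have hΘ' : ∀ i w, Θ (E i w) = 0 := hΘ
  have hexp : ∀ c z, X c z = ∑ j, X c (y j) * E j z := by
    intro c z
    have h1 : X c - ∑ j, X c (y j) • E j = 0 := by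
      apply hH0
      · exact Submodule.sub_mem _ (hHX c) (Submodule.sum_mem _ fun i _ =>
          Submodule.smul_mem _ _ (hEH i))
      · intro k
        rw [Derivation.sub_apply, ← Derivation.coeFnAddMonoidHom_apply (∑ j, _), map_sum,
          Finset.sum_apply]
        simp only [Derivation.coeFnAddMonoidHom_apply, Derivation.smul_apply, hE, smul_eq_mul,
          Matrix.one_apply]
        simp
    have h2 := Derivation.congr_fun h1 z
    rw [Derivation.sub_apply, ← Derivation.coeFnAddMonoidHom_apply (∑ j, _), map_sum,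
          Finset.sum_apply, Derivation.zero_apply, sub_eq_zero] at h2
    rw [h2]
    rfl
  have hXy : ∀ z j, X z (y j) = ∑ k, E k z * P k j := by
    intro z j
    rw [anti, hexp, ← Finset.sum_neg_distrib]
    refine Finset.sum_congr rfl fun k _ => ?_
    have : P k j = - X (y j) (y k) := anti _ _
    rw [this]; ring
  let J : K → Matrix κ κ K := fun c k i => E k (X c (y i))
  have hXP : ∀ c, P.map (X c) = (J c)ᵀ * P + P * J c := by
    intro c
    ext i j
    simp only [Matrix.map_apply, Matrix.add_apply, Matrix.mul_apply, Matrix.transpose_apply]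
    have h1 := Derivation.congr_fun (jac c (y i)) (y j)
    rw [Derivation.commutator_apply, sub_eq_iff_eq_add] at h1
    change X c (X (y i) (y j)) = _
    rw [h1, hXy (X c (y i)) j, anti (y i), hXy (X c (y j)) i, ← Finset.sum_neg_distrib]
    congr 1
    refine Finset.sum_congr rfl fun k _ => ?_
    rw [hP1 i k]
    simp only [J]; ring
  obtain ⟨M, hM0, hM⟩ := exists_congr P hP0 hP1
  have hMu : IsUnit M.det := isUnit_iff_ne_zero.mpr hM0
  have hkey : ∀ c, X c M.det = - (M.det * (J c).trace) := by
    intro c
    let S := M * P * Mᵀ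
    have hS1 := alt_congr P M hP0 hP1
    have hSu : IsUnit S.det := by
      rw [Matrix.det_mul, Matrix.det_mul, Matrix.det_transpose]
      exact (hMu.mul hPu).mul hMu
    have hST : Sᵀ = -S := by
      ext i j
      rw [Matrix.transpose_apply, Matrix.neg_apply]; exact hS1.2 j i
    have hXS : S.map (X c) = 0 := by
      ext i j
      rw [Matrix.map_apply, Matrix.zero_apply]
      rcases hM i j with h | h | h
      · rw [show S i j = 0 from h, map_zero]
      · rw [show S i j = 1 from h, Derivation.map_one_eq_zero]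
      · rw [show S i j = -1 from h, map_neg, Derivation.map_one_eq_zero, neg_zero]
    let M' := M.map (X c)
    have hT : Mᵀ.map (X c) = M'ᵀ := rfl
    rw [map_mul_der, map_mul_der, hT, hXP] at hXS
    let N := M' + M * (J c)ᵀ
    have hN : N * P * Mᵀ + M * P * Nᵀ = 0 := by
      rw [← hXS]
      simp only [N, M', Matrix.transpose_add, Matrix.transpose_mul, Matrix.transpose_transpose,
        Matrix.add_mul, Matrix.mul_add, Matrix.mul_assoc]
      abel
    let W := N * M⁻¹
    have hWS : W * S = N * P * Mᵀ := by
      simp only [W, S]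
      rw [Matrix.mul_assoc N, ← Matrix.mul_assoc M⁻¹, ← Matrix.mul_assoc M⁻¹,
        Matrix.nonsing_inv_mul M hMu, Matrix.one_mul, Matrix.mul_assoc]
    have hsym : (W * S)ᵀ = W * S := by
      rw [hWS, Matrix.transpose_mul, Matrix.transpose_mul, Matrix.transpose_transpose]
      have hPT : Pᵀ = -P := by
        ext i j
        rw [Matrix.transpose_apply, Matrix.neg_apply]; exact hP1 j i
      rw [hPT, Matrix.neg_mul, Matrix.mul_neg, ← Matrix.mul_assoc]
      exact (eq_neg_of_add_eq_zero_left hN).symm
    have hSi := alt_congr S S⁻¹ hS1.1 hS1.2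
    rw [Matrix.nonsing_inv_mul S hSu, Matrix.one_mul] at hSi
    have htr : W.trace = 0 := by
      have h1 : W = (W * S) * S⁻¹ := by
        rw [Matrix.mul_assoc, Matrix.mul_nonsing_inv S hSu, Matrix.mul_one]
      rw [h1]
      simp only [Matrix.trace, Matrix.diag_apply, Matrix.mul_apply]
      have h2 := sum_symm_alt (W * S) (S⁻¹)ᵀ (fun i j => congrFun (congrFun hsym j) i) hSi.2 hSi.1
      simpa only [Matrix.mul_apply, Matrix.transpose_apply] using h2
    have h3 : W.trace = (M⁻¹ * M').trace + (J c).trace := by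
      simp only [W, N]
      rw [Matrix.add_mul, Matrix.trace_add, Matrix.trace_mul_comm M' M⁻¹, Matrix.mul_assoc,
        Matrix.trace_mul_comm M, Matrix.mul_assoc, Matrix.nonsing_inv_mul M hMu, Matrix.mul_one,
        Matrix.trace_transpose]
    rw [htr] at h3
    rw [derivation_det]
    have h4 : (M.adjugate * M').trace = M.det * (M⁻¹ * M').trace := by
      rw [Matrix.inv_def, Matrix.smul_mul, Matrix.trace_smul, smul_eq_mul, Ring.inverse_eq_inv',
        mul_inv_cancel_left₀ hM0]
    change (M.adjugate * M').trace = _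
    rw [h4, ← mul_neg]
    congr 1
    exact eq_neg_of_add_eq_zero_left h3.symm
  refine ⟨Θ ∘ₗ LinearMap.mulLeft L M.det, ?_, ?_⟩
  · intro h
    apply hΘ0
    ext z
    have := LinearMap.congr_fun h (M.det⁻¹ * z)
    simpa [hM0] using this
  · intro c z
    simp only [LinearMap.comp_apply, LinearMap.mulLeft_apply]
    rw [hexp c z, Finset.mul_sum]
    have h1 : ∀ j, M.det * (X c (y j) * E j z)
        = E j (M.det * X c (y j) * z) - z * E j (M.det * X c (y j)) := by
      intro j
      rw [(E j).leibniz, smul_eq_mul, smul_eq_mul]; ring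
    rw [Finset.sum_congr rfl fun j _ => h1 j, Finset.sum_sub_distrib, map_sub, map_sum]
    rw [Finset.sum_congr rfl fun j _ => hΘ' j _, Finset.sum_const_zero, zero_sub, neg_eq_zero,
      ← Finset.mul_sum]
    have h2 : ∑ j, E j (M.det * X c (y j)) = 0 := by
      simp only [Derivation.leibniz, smul_eq_mul, Finset.sum_add_distrib]
      rw [← hexp c M.det, hkey c, ← Finset.mul_sum]
      simp [J, Matrix.trace]
    rw [h2, mul_zero, map_zero]

end R52.LogOzone
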