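import Mathlib
import Pool.Agent.R52.LOzCore

namespace R52.LogOzone

section ext

variable {k A K : Type*} [Field k] [CommRing A] [IsDomain A] [Field K] [Algebra k A] [Algebra A K]
  [Algebra k K] [IsScalarTower k A K] [IsFractionRing A K]

/-- ring map `a ↦ a + ε d(a)` -/
noncomputable def eHom (d : Derivation k A A) : A →+* TrivSqZeroExt K K where
  toFun a := (algebraMap A K a, algebraMap A K (d a))
  map_one' := by
    ext
    · exact map_one _
    · change algebraMap A K (d 1) = 0
      rw [Derivation.map_one_eq_zero, map_zero]
  map_mul' a b := by
    ext
    · exact map_mul _ _ _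
    · change algebraMap A K (d (a * b)) = algebraMap A K a * algebraMap A K (d b) +
        algebraMap A K (d a) * algebraMap A K b
      rw [Derivation.leibniz, map_add, smul_eq_mul, smul_eq_mul, map_mul, map_mul,
        mul_comm (algebraMap A K b)]
  map_zero' := by
    ext
    · exact map_zero _
    · change algebraMap A K (d 0) = 0
      rw [map_zero, map_zero]
  map_add' a b := by
    ext
    · exact map_add _ _ _
    · change algebraMap A K (d (a + b)) = algebraMap A K (d a) + algebraMap A K (d b)
      rw [map_add, map_add]

theorem eHom_unit (d : Derivation k A A) (y : nonZeroDivisors A) :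
    IsUnit (eHom (K := K) d y) := by
  rw [TrivSqZeroExt.isUnit_iff_isUnit_fst]
  change IsUnit (algebraMap A K y)
  exact IsLocalization.map_units K y

noncomputable def eLift (d : Derivation k A A) : K →+* TrivSqZeroExt K K :=
  IsLocalization.lift (M := nonZeroDivisors A) (g := eHom (K := K) d) (eHom_unit d)

theorem eLift_alg (d : Derivation k A A) (a : A) :
    eLift d (algebraMap A K a) = eHom (K := K) d a := IsLocalization.lift_eq _ _

theorem eLift_fst (d : Derivation k A A) (z : K) : (eLift d z).fst = z := by
  have h : (TrivSqZeroExt.fstHom K K K : TrivSqZeroExt K K →+* K).comp (eLift d)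
      = RingHom.id K := by
    apply IsLocalization.ringHom_ext (nonZeroDivisors A)
    ext a
    change (eLift d (algebraMap A K a)).fst = algebraMap A K a
    rw [eLift_alg]; rfl
  exact RingHom.congr_fun h z

/-- Extension of a derivation to the fraction field. -/
noncomputable def extDer (d : Derivation k A A) : Derivation k K K :=
  Derivation.mk'
    { toFun := fun z => (eLift d z).snd
      map_add' := fun z w => by rw [map_add]; rfl
      map_smul' := fun c z => by
        rw [Algebra.smul_def, map_mul, TrivSqZeroExt.snd_mul, IsScalarTower.algebraMap_apply k A K,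
          eLift_alg]
        change algebraMap A K (algebraMap k A c) • (eLift d z).snd +
          MulOpposite.op (eLift d z).fst • algebraMap A K (d (algebraMap k A c)) = _
        rw [d.map_algebraMap, map_zero, smul_zero, add_zero,
          ← IsScalarTower.algebraMap_apply k A K, algebraMap_smul]
        rfl }
    (fun a b => by
      change (eLift d (a * b)).snd = a • (eLift d b).snd + b • (eLift d a).snd
      rw [map_mul, TrivSqZeroExt.snd_mul, eLift_fst, eLift_fst, op_smul_eq_smul])

theorem extDer_alg (d : Derivation k A A) (a : A) :
    extDer (K := K) d (algebraMap A K a) = algebraMap A K (d a) := by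
  change (eLift d (algebraMap A K a)).snd = _
  rw [eLift_alg]; rfl

theorem der_ext_frac {D D' : Derivation k K K}
    (h : ∀ a : A, D (algebraMap A K a) = D' (algebraMap A K a)) : D = D' := by
  ext z
  obtain ⟨a, b, hb, rfl⟩ := IsFractionRing.div_surjective A z
  rw [Derivation.leibniz_div, Derivation.leibniz_div, h, h]

end ext

section const

variable {k K : Type*} [Field k] [Field K] [Algebra k K]

/-- The field of constants of all `k`-derivations of `K`. -/
def constField (k K : Type*) [Field k] [Field K] [Algebra k K] : IntermediateField k K where
  carrier := {z | ∀ D : Derivation k K K, D z = 0}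
  mul_mem' {a b} ha hb D := by rw [D.leibniz, ha D, hb D, smul_zero, smul_zero, add_zero]
  add_mem' {a b} ha hb D := by rw [map_add, ha D, hb D, add_zero]
  algebraMap_mem' r D := D.map_algebraMap r
  inv_mem' a ha D := by rw [D.leibniz_inv, ha D, smul_zero]

theorem const_der (c : constField k K) (D : Derivation k K K) : D (c : K) = 0 := c.2 D

/-- A `k`-derivation is linear over the constants. -/
def toConst (D : Derivation k K K) : Derivation (constField k K) K K where
  toFun := D
  map_add' := D.map_add
  map_smul' c z := by
    rw [IntermediateField.smul_def, smul_eq_mul, D.leibniz, const_der, smul_zero, add_zero]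
    rfl
  map_one_eq_zero' := D.map_one_eq_zero
  leibniz' := D.leibniz

@[simp] theorem toConst_apply (D : Derivation k K K) (z : K) : toConst D z = D z := rfl

theorem toConst_lie (D D' : Derivation k K K) : toConst ⁅D, D'⁆ = ⁅toConst D, toConst D'⁆ := by
  ext z
  rw [toConst_apply, Derivation.commutator_apply, Derivation.commutator_apply]
  rfl

theorem pow_mem_const (p : ℕ) [CharP k p] (z : K) : z ^ p ∈ constField k K := by
  intro D
  have : CharP K p := charP_of_injective_algebraMap (algebraMap k K).injective p
  rw [D.leibniz_pow, nsmul_eq_mul, CharP.cast_eq_zero, zero_mul]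
  
end const

end R52.LogOzone
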