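import Mathlib
import Pool.Agent.R52.LOzFrac

namespace R52.LogOzone

open MvPolynomial

section gen

variable {k K : Type*} [Field k] {n : ℕ} [Field K] [Algebra (MvPolynomial (Fin n) k) K]
  [Algebra k K] [IsScalarTower k (MvPolynomial (Fin n) k) K]
  [IsFractionRing (MvPolynomial (Fin n) k) K]

theorem der_ext_gen {D D' : Derivation k K K}
    (h : ∀ i : Fin n, D (algebraMap (MvPolynomial (Fin n) k) K (X i)) = D' (algebraMap (MvPolynomial (Fin n) k) K (X i))) : D = D' := by
  apply der_ext_frac (A := (MvPolynomial (Fin n) k))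
  intro a
  have h1 : (D.compAlgebraMap (MvPolynomial (Fin n) k) : Derivation k (MvPolynomial (Fin n) k) K) = D'.compAlgebraMap (MvPolynomial (Fin n) k) := by
    apply MvPolynomial.derivation_ext
    intro i
    exact h i
  exact Derivation.congr_fun h1 a

/-- partial derivatives on the fraction field -/
noncomputable def pd (k K : Type*) [Field k] {n : ℕ} [Field K] [Algebra (MvPolynomial (Fin n) k) K]
  [Algebra k K] [IsScalarTower k (MvPolynomial (Fin n) k) K]
  [IsFractionRing (MvPolynomial (Fin n) k) K] (i : Fin n) : Derivation k K K :=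
  extDer (pderiv i : Derivation k (MvPolynomial (Fin n) k) (MvPolynomial (Fin n) k))

theorem pd_alg (i : Fin n) (a : (MvPolynomial (Fin n) k)) : pd k K i (algebraMap (MvPolynomial (Fin n) k) K a) = algebraMap (MvPolynomial (Fin n) k) K (pderiv i a) :=
  extDer_alg _ _

theorem pd_X (i j : Fin n) : pd k K i (algebraMap (MvPolynomial (Fin n) k) K (X j)) = if i = j then 1 else 0 := by
  rw [pd_alg, pderiv_X, Pi.single_apply]
  by_cases h : i = j
  · subst h; simp
  · rw [if_neg h, if_neg (Ne.symm h), map_zero]

theorem pd_comm (i j : Fin n) : ⁅(pd k K i : Derivation k K K), pd k K j⁆ = 0 := by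
  apply der_ext_gen (n := n)
  intro l
  rw [Derivation.commutator_apply, pd_X, pd_X, Derivation.zero_apply]
  split_ifs <;> simp

theorem finite_const (k K : Type*) (n : ℕ) [Field k] [Field K]
    [Algebra (MvPolynomial (Fin n) k) K] [Algebra k K]
    [IsScalarTower k (MvPolynomial (Fin n) k) K]
    [IsFractionRing (MvPolynomial (Fin n) k) K] (p : ℕ) [Fact p.Prime] [CharP k p] :
    FiniteDimensional (constField k K) K := by
  let S : Set K := Set.range fun i : Fin n => algebraMap (MvPolynomial (Fin n) k) K (X i)
  have hfin : Finite S := Set.finite_range _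
  have h1 : FiniteDimensional (constField k K) (IntermediateField.adjoin (constField k K) S) := by
    apply IntermediateField.finiteDimensional_adjoin
    rintro _ ⟨i, rfl⟩
    have hp : 0 < p := (Fact.out : p.Prime).pos
    apply IsIntegral.of_pow hp
    exact isIntegral_algebraMap (R := constField k K)
      (x := ⟨(algebraMap (MvPolynomial (Fin n) k) K (X i)) ^ p, pow_mem_const p _⟩)
  have h2 : IntermediateField.adjoin (constField k K) S = ⊤ := by
    rw [eq_top_iff]
    intro z _
    obtain ⟨a, b, hb, rfl⟩ := IsFractionRing.div_surjective (MvPolynomial (Fin n) k) z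
    have h3 : ∀ a : (MvPolynomial (Fin n) k), algebraMap (MvPolynomial (Fin n) k) K a ∈ IntermediateField.adjoin (constField k K) S := by
      intro a
      induction a using MvPolynomial.induction_on with
      | C c =>
        have : algebraMap (MvPolynomial (Fin n) k) K (C c) = algebraMap (constField k K) K (algebraMap k _ c) := by
          rw [← IsScalarTower.algebraMap_apply k (constField k K) K,
            IsScalarTower.algebraMap_apply k (MvPolynomial (Fin n) k) K]
          rfl
        rw [this]
        exact IntermediateField.algebraMap_mem _ _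
      | add p q hp hq => rw [map_add]; exact add_mem hp hq
      | mul_X p i hp =>
        rw [map_mul]
        exact mul_mem hp (IntermediateField.subset_adjoin _ _ ⟨i, rfl⟩)
    exact div_mem (h3 _) (h3 _)
  rw [h2] at h1
  exact Module.Finite.equiv (IntermediateField.topEquiv (F := constField k K) (E := K)).toLinearEquiv

end gen

/-- The hypotheses of a polynomial Poisson algebra. -/
structure IsPoisson {k : Type*} [Field k] {n : ℕ}
    (Br : MvPolynomial (Fin n) k →ₗ[k] MvPolynomial (Fin n) k →ₗ[k] MvPolynomial (Fin n) k) :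
    Prop where
  alt : ∀ a, Br a a = 0
  jac : ∀ a b c, Br a (Br b c) = Br (Br a b) c + Br b (Br a c)
  leib : ∀ a b c, Br a (b * c) = b * Br a c + c * Br a b

section bracket

variable {k K : Type*} [Field k] {n : ℕ} [Field K] [Algebra (MvPolynomial (Fin n) k) K]
  [Algebra k K] [IsScalarTower k (MvPolynomial (Fin n) k) K]
  [IsFractionRing (MvPolynomial (Fin n) k) K]
  (Br : MvPolynomial (Fin n) k →ₗ[k] MvPolynomial (Fin n) k →ₗ[k] MvPolynomial (Fin n) k)

theorem sum_der_apply {R A M : Type*} [CommSemiring R] [CommSemiring A] [AddCommMonoid M]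
    [Algebra R A] [Module A M] [Module R M] {ι : Type*} (s : Finset ι)
    (D : ι → Derivation R A M) (a : A) : (∑ i ∈ s, D i) a = ∑ i ∈ s, D i a := by
  rw [← Derivation.coeFnAddMonoidHom_apply, map_sum, Finset.sum_apply]
  rfl

theorem der_expand (D : Derivation k (MvPolynomial (Fin n) k) (MvPolynomial (Fin n) k)) (b : (MvPolynomial (Fin n) k)) : D b = ∑ j, D (X j) * pderiv j b := by
  have h : D = ∑ j, D (X j) • pderiv j := by
    apply MvPolynomial.derivation_ext
    intro i
    rw [sum_der_apply]
    simp [pderiv_X, Pi.single_apply]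
  conv_lhs => rw [h]
  rw [sum_der_apply]
  rfl

variable {Br}

theorem IsPoisson.anti (h : IsPoisson Br) (a b : (MvPolynomial (Fin n) k)) : Br a b = - Br b a := by
  have h1 := h.alt (a + b)
  simp only [map_add, LinearMap.add_apply, h.alt, zero_add, add_zero] at h1
  exact eq_neg_of_add_eq_zero_right h1

/-- `{a, -}` as a derivation -/
noncomputable def IsPoisson.der (h : IsPoisson Br) (a : (MvPolynomial (Fin n) k)) : Derivation k (MvPolynomial (Fin n) k) (MvPolynomial (Fin n) k) :=
  Derivation.mk' (Br a) (fun b c => h.leib a b c)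

theorem IsPoisson.expand (h : IsPoisson Br) (a b : (MvPolynomial (Fin n) k)) :
    Br a b = ∑ j, (∑ i, Br (X i) (X j) * pderiv i a) * pderiv j b := by
  have h1 := der_expand (h.der a) b
  change Br a b = ∑ j, Br a (X j) * pderiv j b at h1
  rw [h1]
  refine Finset.sum_congr rfl fun j _ => ?_
  congr 1
  have h2 := der_expand (h.der (X j)) a
  change Br (X j) a = ∑ i, Br (X j) (X i) * pderiv i a at h2
  rw [h.anti, h2, ← Finset.sum_neg_distrib]
  refine Finset.sum_congr rfl fun i _ => ?_
  rw [h.anti (X j) (X i)]; ring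

variable (Br) in
/-- Hamiltonian derivation on the fraction field -/
noncomputable def XK (K : Type*) [Field K] [Algebra (MvPolynomial (Fin n) k) K]
  [Algebra k K] [IsScalarTower k (MvPolynomial (Fin n) k) K]
  [IsFractionRing (MvPolynomial (Fin n) k) K] (f : K) : Derivation k K K :=
  ∑ j, (∑ i, algebraMap (MvPolynomial (Fin n) k) K (Br (X i) (X j)) * pd k K i f) • pd k K j

variable (Br) in
theorem XK_apply (f g : K) :
    XK Br K f g = ∑ j, (∑ i, algebraMap (MvPolynomial (Fin n) k) K (Br (X i) (X j)) * pd k K i f) * pd k K j g := by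
  rw [XK, sum_der_apply]
  rfl

theorem XK_add (f g : K) : XK Br K (f + g) = XK Br K f + XK Br K g := by
  ext z
  rw [Derivation.add_apply, XK_apply, XK_apply, XK_apply, ← Finset.sum_add_distrib]
  refine Finset.sum_congr rfl fun j _ => ?_
  rw [← add_mul, ← Finset.sum_add_distrib]
  congr 1
  refine Finset.sum_congr rfl fun i _ => ?_
  rw [map_add, mul_add]

theorem XK_neg (f : K) : XK Br K (-f) = - XK Br K f := by
  ext z
  rw [Derivation.neg_apply, XK_apply, XK_apply, ← Finset.sum_neg_distrib]
  refine Finset.sum_congr rfl fun j _ => ?_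
  rw [← neg_mul, ← Finset.sum_neg_distrib]
  congr 1
  refine Finset.sum_congr rfl fun i _ => ?_
  rw [map_neg, mul_neg]

theorem XK_smul (c : constField k K) (f : K) :
    toConst (XK Br K (c • f)) = c • toConst (XK Br K f) := by
  ext z
  rw [Derivation.smul_apply, toConst_apply, toConst_apply, XK_apply, XK_apply, Finset.smul_sum]
  refine Finset.sum_congr rfl fun j _ => ?_
  rw [← smul_mul_assoc, Finset.smul_sum]
  congr 1
  refine Finset.sum_congr rfl fun i _ => ?_
  have := (toConst (pd k K i)).map_smul c f
  rw [toConst_apply, toConst_apply] at this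
  rw [this, mul_smul_comm]

theorem XK_alg (h : IsPoisson Br) (a b : (MvPolynomial (Fin n) k)) :
    XK Br K (algebraMap (MvPolynomial (Fin n) k) K a) (algebraMap (MvPolynomial (Fin n) k) K b) = algebraMap (MvPolynomial (Fin n) k) K (Br a b) := by
  rw [XK_apply, h.expand a b, map_sum]
  refine Finset.sum_congr rfl fun j _ => ?_
  rw [map_mul, map_sum, pd_alg]
  congr 1
  refine Finset.sum_congr rfl fun i _ => ?_
  rw [map_mul, pd_alg]

theorem XK_alt (h : IsPoisson Br) (f : K) : XK Br K f f = 0 := by
  rw [XK_apply]
  have h1 := sum_symm_alt (K := K) (fun j i : Fin n => pd k K i f * pd k K j f)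
    (fun j i => algebraMap (MvPolynomial (Fin n) k) K (Br (X i) (X j))) (fun i j => mul_comm _ _)
    (fun i j => by rw [h.anti, map_neg]) (fun i => by rw [h.alt, map_zero])
  rw [← h1]
  refine Finset.sum_congr rfl fun j _ => ?_
  rw [Finset.sum_mul]
  refine Finset.sum_congr rfl fun i _ => ?_
  ring

theorem XK_anti (h : IsPoisson Br) (f g : K) : XK Br K f g = - XK Br K g f := by
  have h1 := XK_alt h (f + g)
  simp only [XK_add, map_add, Derivation.add_apply, XK_alt h, zero_add, add_zero] at h1
  first
    | exact eq_neg_of_add_eq_zero_left h1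
    | exact eq_neg_of_add_eq_zero_right h1

theorem XK_cyc (h : IsPoisson Br) (f g l : K)
    (h1 : ⁅XK Br K f, XK Br K g⁆ l = XK Br K (XK Br K f g) l) :
    ⁅XK Br K g, XK Br K l⁆ f = XK Br K (XK Br K g l) f := by
  rw [Derivation.commutator_apply] at h1 ⊢
  rw [XK_anti h l f, XK_anti h l (XK Br K g f), XK_anti h g f, XK_anti h (XK Br K g l) f,
    map_neg, XK_neg, Derivation.neg_apply, ← h1]
  ring

theorem XK_jac1 (h : IsPoisson Br) (a b : (MvPolynomial (Fin n) k)) :
    ⁅XK Br K (algebraMap (MvPolynomial (Fin n) k) K a), XK Br K (algebraMap (MvPolynomial (Fin n) k) K b)⁆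
      = XK Br K (XK Br K (algebraMap (MvPolynomial (Fin n) k) K a) (algebraMap (MvPolynomial (Fin n) k) K b)) := by
  apply der_ext_gen (n := n)
  intro i
  rw [Derivation.commutator_apply]
  simp only [XK_alg h]
  rw [← map_sub, h.jac a b (X i)]
  congr 1
  ring

theorem XK_jac2 (h : IsPoisson Br) (a : (MvPolynomial (Fin n) k)) (g : K) :
    ⁅XK Br K (algebraMap (MvPolynomial (Fin n) k) K a), XK Br K g⁆
      = XK Br K (XK Br K (algebraMap (MvPolynomial (Fin n) k) K a) g) := by
  apply der_ext_gen (n := n)
  intro i
  apply XK_cyc h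
  rw [XK_jac1 h]

theorem XK_jac (h : IsPoisson Br) (f g : K) :
    ⁅XK Br K f, XK Br K g⁆ = XK Br K (XK Br K f g) := by
  apply der_ext_gen (n := n)
  intro i
  apply XK_cyc h
  rw [XK_jac2 h]

end bracket

end R52.LogOzone
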