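import Mathlib
import Pool.Agent.R52.LOzMain

namespace R52.LogOzone

open MvPolynomial

theorem exists_v {k K : Type*} [Field k] {n : ℕ} [Field K] [Algebra (MvPolynomial (Fin n) k) K]
    [Algebra k K] [IsScalarTower k (MvPolynomial (Fin n) k) K]
    [IsFractionRing (MvPolynomial (Fin n) k) K] (p : ℕ) [Fact p.Prime] [CharP k p]
    {Br : MvPolynomial (Fin n) k →ₗ[k] MvPolynomial (Fin n) k →ₗ[k] MvPolynomial (Fin n) k}
    (h : IsPoisson Br) :
    ∃ v : K, v ≠ 0 ∧ ∀ g : K, XK Br K g v =
      - v * ∑ j, pd k K j (XK Br K g (algebraMap (MvPolynomial (Fin n) k) K (X j))) := by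
  have hfd : FiniteDimensional (constField k K) K := finite_const k K n p
  let L := constField k K
  let Xl : K →ₗ[L] Derivation L K K :=
    { toFun := fun f => toConst (XK Br K f)
      map_add' := fun f g => by rw [XK_add]; rfl
      map_smul' := fun c f => XK_smul c f }
  obtain ⟨Λ, hΛ0, hΛ⟩ := core Xl (fun a => XK_alt h a) (fun a b => by
    change ⁅toConst (XK Br K a), toConst (XK Br K b)⁆ = toConst (XK Br K (XK Br K a b))
    rw [← XK_jac h, toConst_lie])
  obtain ⟨Δ, hΔ0, hΔ⟩ := exists_functional (F := L) (V := K)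
    (fun i : Fin n => ((toConst (pd k K i) : Derivation L K K) : K →ₗ[L] K)) (by
      intro i j
      ext z
      have := Derivation.congr_fun (pd_comm (k := k) (K := K) i j) z
      rw [Derivation.commutator_apply, Derivation.zero_apply, sub_eq_zero] at this
      exact this) 1 one_ne_zero (fun i => (pd k K i).map_one_eq_zero)
  have hΔ' : ∀ (i : Fin n) w, Δ (pd k K i w) = 0 := hΔ
  let T : K →ₗ[L] (K →ₗ[L] L) := (LinearMap.compRight L Δ) ∘ₗ (LinearMap.mul L K)
  have hT : ∀ v z, T v z = Δ (v * z) := fun v z => rfl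
  have hTinj : Function.Injective T := by
    rw [← LinearMap.ker_eq_bot, LinearMap.ker_eq_bot']
    intro v hv
    by_contra hv0
    apply hΔ0
    ext z
    have := LinearMap.congr_fun hv (v⁻¹ * z)
    rw [hT, mul_inv_cancel_left₀ hv0, LinearMap.zero_apply] at this
    rw [this]
    rfl
  have hTsurj : Function.Surjective T := by
    rw [← LinearMap.injective_iff_surjective_of_finrank_eq_finrank]
    · exact hTinj
    · exact (Subspace.dual_finrank_eq (K := L) (V := K)).symm
  obtain ⟨v, hv⟩ := hTsurj Λ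
  refine ⟨v, ?_, ?_⟩
  · rintro rfl
    apply hΛ0
    rw [← hv, map_zero]
  · intro g
    set c : Fin n → K := fun j => XK Br K g (algebraMap (MvPolynomial (Fin n) k) K (X j)) with hc
    have hexp : ∀ z, XK Br K g z = ∑ j, c j * pd k K j z := by
      intro z
      rw [XK_apply]
      refine Finset.sum_congr rfl fun j _ => ?_
      congr 1
      simp only [hc, XK_apply, pd_X]
      simp
    have hzero : ∑ j, pd k K j (v * c j) = 0 := by
      apply hTinj
      rw [map_zero]
      ext z
      have h1 : Λ (XK Br K g z) = 0 := hΛ g z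
      rw [← hv, hT, hexp, Finset.mul_sum] at h1
      have h2 : ∀ j, v * (c j * pd k K j z)
          = pd k K j (v * c j * z) - pd k K j (v * c j) * z := by
        intro j
        rw [(pd k K j).leibniz (v * c j) z, smul_eq_mul, smul_eq_mul]; ring
      rw [Finset.sum_congr rfl fun j _ => h2 j, Finset.sum_sub_distrib, map_sub, map_sum,
        Finset.sum_congr rfl fun j _ => hΔ' j _, Finset.sum_const_zero, zero_sub, neg_eq_zero,
        ← Finset.sum_mul] at h1
      rw [hT, h1]
      rfl
    simp only [Derivation.leibniz, smul_eq_mul, Finset.sum_add_distrib] at hzero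
    rw [← hexp, ← Finset.mul_sum] at hzero
    rw [neg_mul]
    exact eq_neg_of_add_eq_zero_right hzero

theorem exists_omega {k : Type*} [Field k] {n : ℕ} (p : ℕ) [Fact p.Prime] [CharP k p]
    {Br : MvPolynomial (Fin n) k →ₗ[k] MvPolynomial (Fin n) k →ₗ[k] MvPolynomial (Fin n) k}
    (h : IsPoisson Br) :
    ∃ Ω : MvPolynomial (Fin n) k, Ω ≠ 0 ∧ ∀ a, Br a Ω = (∑ j, pderiv j (Br (X j) a)) * Ω := by
  let A := MvPolynomial (Fin n) k
  let K := FractionRing A
  obtain ⟨v, hv0, hv⟩ := exists_v (K := K) p h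
  obtain ⟨s, t, ht, hst⟩ := IsFractionRing.div_surjective A v
  have ht0 : t ≠ 0 := nonZeroDivisors.ne_zero ht
  have htK : algebraMap A K t ≠ 0 := by
    rw [Ne, IsFractionRing.to_map_eq_zero_iff]; exact ht0
  have hp : 0 < p := (Fact.out : p.Prime).pos
  have hinj : Function.Injective (algebraMap A K) := IsFractionRing.injective A K
  have hΩ : algebraMap A K (s * t ^ (p - 1)) = v * (algebraMap A K t) ^ p := by
    rw [map_mul, map_pow, ← hst]
    obtain ⟨q, rfl⟩ : ∃ q, p = q + 1 := ⟨p - 1, by omega⟩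
    rw [Nat.add_sub_cancel, div_mul_eq_mul_div, eq_div_iff htK]
    ring
  refine ⟨s * t ^ (p - 1), ?_, ?_⟩
  · intro h0
    rw [h0, map_zero] at hΩ
    exact (mul_ne_zero hv0 (pow_ne_zero p htK)) hΩ.symm
  · intro a
    apply hinj
    have h1 : XK Br K (algebraMap A K a) (v * (algebraMap A K t) ^ p)
        = (algebraMap A K t) ^ p * XK Br K (algebraMap A K a) v := by
      rw [Derivation.leibniz,
        pow_mem_const p (algebraMap A K t) (XK Br K (algebraMap A K a)), smul_zero, zero_add,
        smul_eq_mul]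
    rw [← XK_alg (K := K) h, hΩ, map_mul (algebraMap A K), hΩ, h1, hv]
    have h2 : ∀ j, pd k K j (XK Br K (algebraMap A K a) (algebraMap A K (X j)))
        = - algebraMap A K (pderiv j (Br (X j) a)) := by
      intro j
      rw [XK_alg h, pd_alg, h.anti, map_neg, map_neg]
    rw [Finset.sum_congr rfl fun j _ => h2 j, Finset.sum_neg_distrib, ← map_sum]
    ring

/-- The modular derivation is the log-ozone derivation of a single polynomial. -/
theorem modular_eq_delta {k : Type*} [Field k] {n : ℕ} (p : ℕ) [Fact p.Prime] [CharP k p]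
    {Br : MvPolynomial (Fin n) k →ₗ[k] MvPolynomial (Fin n) k →ₗ[k] MvPolynomial (Fin n) k}
    (h : IsPoisson Br) :
    ∃ (φ : Derivation k (MvPolynomial (Fin n) k) (MvPolynomial (Fin n) k))
      (Ω : MvPolynomial (Fin n) k), Ω ≠ 0 ∧ (∀ a, φ a = ∑ j, pderiv j (Br (X j) a)) ∧
      ∀ a, Br a Ω = φ a * Ω := by
  obtain ⟨Ω, hΩ0, hΩ⟩ := exists_omega p h
  let φ0 : MvPolynomial (Fin n) k →ₗ[k] MvPolynomial (Fin n) k :=
    ∑ j, ((pderiv j : Derivation k (MvPolynomial (Fin n) k) (MvPolynomial (Fin n) k)) :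
      MvPolynomial (Fin n) k →ₗ[k] MvPolynomial (Fin n) k) ∘ₗ (Br (X j))
  have hφ0 : ∀ a, φ0 a = ∑ j, pderiv j (Br (X j) a) := by
    intro a
    simp [φ0, LinearMap.sum_apply]
  refine ⟨Derivation.mk' φ0 ?_, Ω, hΩ0, hφ0, ?_⟩
  · intro a b
    apply mul_right_cancel₀ hΩ0
    have h1 := hΩ (a * b)
    rw [← hφ0] at h1
    rw [← h1, h.anti, h.leib, h.anti Ω b, h.anti Ω a, hΩ, hΩ, ← hφ0, ← hφ0, smul_eq_mul,
      smul_eq_mul]
    ring
  · intro a
    rw [hΩ a, ← hφ0]
    rfl

end R52.LogOzone
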