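import Pool.Agent.W998.KG.Base

/-!
# Rings in graphs that are not `(Δ + T)`-edge-colourable
-/

set_option autoImplicit false

namespace Pool.Agent.R52.Ring

open Pool.Agent.Results.MP_633d19_co.SmallDegree
open Pool.Agent.Results.MP_633d19_co.SmallDegree.MGraph
open Pool.Agent.W998.KG

variable {V E : Type}

/-- `e` joins two cyclically consecutive vertices of `y 0, ..., y (l-1)`. -/
def RE (G : MGraph V E) (l : ℕ) (y : ℕ → V) (e : E) : Prop :=
  ∃ i < l, G.ends e = s(y i, y (nx l i))

/-- Counting the edges of the ring spanned by the cycle of a state. -/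
theorem ring_count [Finite V] [Finite E] {G : MGraph V E} {k l : ℕ} {y : ℕ → V} {f : ℕ → E}
    {α β : Fin k} {c : E → Option (Fin k)} (hl : 3 ≤ l) (hst : G.State l y f α β c)
    (hch : ∀ i < l, ∀ j < l, (∃ e, G.ends e = s(y i, y j)) → j = nx l i ∨ i = nx l j)
    (hA : ∀ a : Fin k, a ≠ α → a ≠ β →
      ∃ A : Finset ℕ, (∀ i ∈ A, i < l ∧ In G l y c a i) ∧ l ≤ A.card + 1)
    (R : Finset E) (hR : ∀ e, e ∈ R ↔ RE G l y e) :
    (k - 2) * (l - 1) + 2 * l ≤ 2 * R.card := by
  classical
  have : Fintype E := Fintype.ofFinite E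
  have hpv : ∀ i, i < l → ∃ p, p < l ∧ nx l p = i := by
    intro i hi
    by_cases h0 : i = 0
    · exact ⟨l - 1, by omega, by unfold nx; rw [if_pos (by omega)]; omega⟩
    · exact ⟨i - 1, by omega, by unfold nx; rw [if_neg (by omega)]; omega⟩
  choose! pv hpv1 hpv2 using hpv
  have hnx : ∀ i, i < l → nx l i ≠ i := by
    intro i hi h
    unfold nx at h
    split_ifs at h <;> omega
  have hpvne : ∀ i, i < l → pv i ≠ i := by
    intro i hi h
    have h1 := hpv2 i hi
    rw [h] at h1
    exact hnx i hi h1
  let S : ℕ → Finset E := fun i => Finset.univ.filter fun e =>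
    G.ends e = s(y i, y (nx l i)) ∨ G.ends e = s(y i, y (pv i))
  let C : ℕ → Finset (Fin k) := fun i =>
    ((Finset.univ.erase α).erase β).filter fun a => In G l y c a i
  have hS : ∀ i, i < l → S i ⊆ R.filter (fun e => y i ∈ G.ends e) := by
    intro i hi e he
    rw [Finset.mem_filter, hR]
    rcases (Finset.mem_filter.1 he).2 with h | h
    · exact ⟨⟨i, hi, h⟩, by rw [h]; exact Sym2.mem_mk_left _ _⟩
    · refine ⟨⟨pv i, hpv1 i hi, ?_⟩, by rw [h]; exact Sym2.mem_mk_left _ _⟩
      rw [hpv2 i hi, h, Sym2.eq_swap]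
  have finj := G.edge_inj hl hst.inj hst.ed
  have hC : ∀ i, i < l → (C i).card + 2 ≤ (S i).card := by
    intro i hi
    have h1 : (C i).card ≤ ((S i).filter fun e => c e ≠ none).card := by
      have h2 : (C i).image some ⊆ ((S i).filter fun e => c e ≠ none).image c := by
        intro o ho
        rw [Finset.mem_image] at ho
        obtain ⟨a, ha, rfl⟩ := ho
        obtain ⟨e, he, j, hj, hji, hends⟩ := (Finset.mem_filter.1 ha).2
        rw [Finset.mem_image]
        refine ⟨e, Finset.mem_filter.2 ⟨Finset.mem_filter.2 ⟨Finset.mem_univ _, ?_⟩, ?_⟩, he⟩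
        · rcases hch i hi j hj ⟨e, hends⟩ with h | h
          · left
            rw [hends, h]
          · right
            have h5 : pv i = j := by
              apply nx_inj (l := l)
              rw [hpv2 i hi, h]
            rw [hends, h5]
        · rw [he]; simp
      calc (C i).card = ((C i).image some).card :=
            (Finset.card_image_of_injective _ (Option.some_injective _)).symm
        _ ≤ _ := Finset.card_le_card h2
        _ ≤ _ := Finset.card_image_le
    have h6 : 2 ≤ ((S i).filter fun e => ¬ (c e ≠ none)).card := by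
      have h7 : ({f i, f (pv i)} : Finset E) ⊆ (S i).filter fun e => ¬ (c e ≠ none) := by
        intro e he
        rw [Finset.mem_insert, Finset.mem_singleton] at he
        rcases he with rfl | rfl
        · refine Finset.mem_filter.2 ⟨Finset.mem_filter.2 ⟨Finset.mem_univ _, Or.inl
            (hst.ed i hi)⟩, ?_⟩
          rw [not_not]
          exact (hst.none_iff _).2 ⟨i, hi, rfl⟩
        · refine Finset.mem_filter.2 ⟨Finset.mem_filter.2 ⟨Finset.mem_univ _, Or.inr ?_⟩, ?_⟩
          · rw [hst.ed _ (hpv1 i hi), hpv2 i hi, Sym2.eq_swap]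
          · rw [not_not]
            exact (hst.none_iff _).2 ⟨pv i, hpv1 i hi, rfl⟩
      have h8 : f i ≠ f (pv i) := fun h => hpvne i hi (finj _ hi _ (hpv1 i hi) h).symm
      calc 2 = ({f i, f (pv i)} : Finset E).card := (Finset.card_pair h8).symm
        _ ≤ _ := Finset.card_le_card h7
    have h9 := Finset.card_filter_add_card_filter_not (s := S i) (fun e => c e ≠ none)
    omega
  have hcol : ∀ a ∈ (Finset.univ.erase α).erase β,
      l - 1 ≤ ((Finset.range l).filter fun i => In G l y c a i).card := by
    intro a ha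
    obtain ⟨A, hA1, hA2⟩ := hA a (Finset.ne_of_mem_erase (Finset.mem_of_mem_erase ha))
      (Finset.ne_of_mem_erase ha)
    have h1 : A ⊆ (Finset.range l).filter fun i => In G l y c a i := by
      intro i hi
      exact Finset.mem_filter.2 ⟨Finset.mem_range.2 (hA1 i hi).1, (hA1 i hi).2⟩
    have h2 := Finset.card_le_card h1
    omega
  have hcard : ((Finset.univ.erase α).erase β : Finset (Fin k)).card = k - 2 := by
    rw [Finset.card_erase_of_mem (Finset.mem_erase.2 ⟨hst.ne.symm, Finset.mem_univ _⟩),
      Finset.card_erase_of_mem (Finset.mem_univ _), Finset.card_univ, Fintype.card_fin]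
    omega
  have hsum1 : (k - 2) * (l - 1) ≤
      ∑ a ∈ (Finset.univ.erase α).erase β, ((Finset.range l).filter fun i =>
        In G l y c a i).card := by
    have h1 := Finset.sum_le_sum hcol
    rwa [Finset.sum_const, hcard, smul_eq_mul] at h1
  have hsum2 : ∑ a ∈ (Finset.univ.erase α).erase β, ((Finset.range l).filter fun i =>
      In G l y c a i).card = ∑ i ∈ Finset.range l, (C i).card := by
    simp only [C, Finset.card_filter]
    exact Finset.sum_comm
  have hsum3 : ∑ i ∈ Finset.range l, ((C i).card + 2) ≤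
      ∑ i ∈ Finset.range l, (R.filter (fun e => y i ∈ G.ends e)).card :=
    Finset.sum_le_sum fun i hi =>
      (hC i (Finset.mem_range.1 hi)).trans
        (Finset.card_le_card (hS i (Finset.mem_range.1 hi)))
  have hsum4 : ∑ i ∈ Finset.range l, (R.filter (fun e => y i ∈ G.ends e)).card =
      ∑ e ∈ R, ((Finset.range l).filter (fun i => y i ∈ G.ends e)).card := by
    simp only [Finset.card_filter]
    exact Finset.sum_comm
  have hsum5 : ∑ e ∈ R, ((Finset.range l).filter (fun i => y i ∈ G.ends e)).card ≤
      ∑ e ∈ R, 2 := by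
    apply Finset.sum_le_sum
    intro e he
    obtain ⟨i, hi, hie⟩ := (hR e).1 he
    have h1 : (Finset.range l).filter (fun i => y i ∈ G.ends e) ⊆ {i, nx l i} := by
      intro j hj
      obtain ⟨hj1, hj2⟩ := Finset.mem_filter.1 hj
      rw [Finset.mem_range] at hj1
      rw [hie, Sym2.mem_iff] at hj2
      rw [Finset.mem_insert, Finset.mem_singleton]
      rcases hj2 with h | h
      · exact Or.inl (hst.inj _ hj1 _ hi h)
      · exact Or.inr (hst.inj _ hj1 _ (nx_lt hi) h)
    exact (Finset.card_le_card h1).trans Finset.card_le_two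
  rw [Finset.sum_const, smul_eq_mul] at hsum5
  rw [Finset.sum_add_distrib, Finset.sum_const, Finset.card_range,
    smul_eq_mul, ← hsum2, hsum4] at hsum3
  omega

/-- If all ends of the edges in `S` lie in the set `W` of `2 q + 1` vertices, every colour is used
at most `q` times on `S`. -/
theorem overfull_on {G : MGraph V E} {k q : ℕ} (S : Finset E) (c : E → Fin k)
    (hc : ∀ e ∈ S, ∀ f ∈ S, e ≠ f → (∃ v, v ∈ G.ends e ∧ v ∈ G.ends f) → c e ≠ c f)
    (W : Finset V) (hW : W.card = 2 * q + 1) (hS : ∀ e ∈ S, ∀ v ∈ G.ends e, v ∈ W) :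
    S.card ≤ k * q := by
  classical
  have h1 : ∀ a : Fin k, (S.filter (fun e => c e = a)).card ≤ q := by
    intro a
    have h2 : ∀ e ∈ S.filter (fun e => c e = a),
        ∀ f ∈ S.filter (fun e => c e = a), e ≠ f →
        Disjoint (W.filter (fun v => v ∈ G.ends e)) (W.filter (fun v => v ∈ G.ends f)) := by
      intro e he f hf hef
      rw [Finset.disjoint_left]
      intro v hv hv'
      rw [Finset.mem_filter] at he hf hv hv'
      exact hc e he.1 f hf.1 hef ⟨v, hv.2, hv'.2⟩ (he.2.trans hf.2.symm)
    have h3 := Finset.card_biUnion h2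
    have h4 : ∀ e ∈ S.filter (fun e => c e = a), (W.filter (fun v => v ∈ G.ends e)).card = 2 := by
      intro e he
      obtain ⟨x, y, hxy, hes⟩ := G.exists_ends e
      have heS := (Finset.mem_filter.1 he).1
      have : W.filter (fun v => v ∈ G.ends e) = {x, y} := by
        ext v
        rw [Finset.mem_filter, hes, Sym2.mem_iff, Finset.mem_insert, Finset.mem_singleton]
        constructor
        · exact fun h => h.2
        · intro h
          refine ⟨hS e heS v ?_, h⟩
          rw [hes, Sym2.mem_iff]
          exact h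
      rw [this, Finset.card_pair hxy]
    have h5 : ((S.filter (fun e => c e = a)).biUnion
        (fun e => W.filter (fun v => v ∈ G.ends e))).card ≤ W.card := by
      apply Finset.card_le_card
      intro v hv
      obtain ⟨e, -, hv⟩ := Finset.mem_biUnion.1 hv
      exact (Finset.mem_filter.1 hv).1
    rw [h3, hW, Finset.sum_congr rfl h4, Finset.sum_const, smul_eq_mul] at h5
    omega
  have h6 := Finset.card_eq_sum_card_fiberwise (f := c) (s := S) (t := Finset.univ)
    (fun _ _ => Finset.mem_univ _)
  rw [h6]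
  calc _ ≤ ∑ _a : Fin k, q := Finset.sum_le_sum (fun a _ => h1 a)
    _ = k * q := by simp

/-- A class of graphs in which the cycle of every state is closed and has no chords. -/
def Closed (Δ T : ℕ) (P : ∀ (V E : Type), MGraph V E → Prop) : Prop :=
  ∀ {V E : Type} [Finite V] [Finite E] {G : MGraph V E}, ¬ G.Colorable (Δ + T) →
    (∀ u, G.degree u ≤ Δ) → P V E G →
    ∀ {l : ℕ} {y : ℕ → V} {f : ℕ → E} {α β : Fin (Δ + T)} {c : E → Option (Fin (Δ + T))},
    3 ≤ l → l % 2 = 1 → G.State l y f α β c →
    (∀ a : Fin (Δ + T), (∃ j < l, G.Miss c (y j) a) → ∀ i < l, ¬ Lv G l y c a i) ∧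
    (∀ i < l, ∀ j < l, (∃ e, G.ends e = s(y i, y j)) → j = nx l i ∨ i = nx l j)

/-- In such a class a graph that is not `(Δ + T)`-edge-colourable contains a ring of odd order
which is overfull. -/
theorem core {Δ T : ℕ} (hT : 1 ≤ T) (P : ∀ (V E : Type), MGraph V E → Prop)
    (hdel : ∀ (V E : Type) (G : MGraph V E) (e0 : E), P V E G →
      P V {e : E // e ≠ e0} (G.del e0))
    (hP : Closed Δ T P) (n : ℕ) :
    ∀ {V : Type} (E : Type) [Finite V] [Finite E] (G : MGraph V E), Nat.card E = n →
      (∀ u, G.degree u ≤ Δ) → P V E G → ¬ G.Colorable (Δ + T) →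
      ∃ (l : ℕ) (y : ℕ → V) (R : Finset E), 3 ≤ l ∧ l % 2 = 1 ∧
        (∀ i < l, ∀ j < l, y i = y j → i = j) ∧ (∀ e ∈ R, RE G l y e) ∧
        (∀ i < l, ∃ e ∈ R, G.ends e = s(y i, y (nx l i))) ∧
        (Δ + T) * (l / 2) + 1 ≤ R.card ∧ l * T + 2 ≤ Δ + T := by
  classical
  have hINN : PartINN := W648.KG.INN.main (W675.KG.EXI.main W29.KG.main W460.KG.ODD.main
    W191.KG.SWP.main)
  induction n with
  | zero =>
    intro V E _ _ G hE _ _ hG
    have : IsEmpty E := by
      rcases Nat.card_eq_zero.mp hE with h | h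
      · exact h
      · exact absurd ‹Finite E› h.not_finite
    exact absurd ⟨fun e => (this.false e).elim, fun e => (this.false e).elim⟩ hG
  | succ n ih =>
    intro V E _ _ G hE hdeg hPG hG
    obtain ⟨e0⟩ : Nonempty E := by
      have : 0 < Nat.card E := by omega
      exact (Nat.card_pos_iff.mp this).1
    have hcard : Nat.card {e : E // e ≠ e0} = n := by
      have := Fintype.ofFinite E
      rw [Nat.card_eq_fintype_card] at hE ⊢
      have h1 := Fintype.card_subtype_compl (fun e : E => e = e0)
      simp only [Fintype.card_subtype_eq] at h1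
      rw [hE] at h1
      simpa using h1
    by_cases hdelc : (G.del e0).Colorable (Δ + T)
    · obtain ⟨l, y, f, α, β, c, hl, hodd, H⟩ :=
        W52.KG.STA.main G (k := Δ + T) (Δ := Δ) (by omega) hdeg hG e0 hdelc
      have hcl : ∀ c : E → Option (Fin (Δ + T)), G.State l y f α β c → ∀ a : Fin (Δ + T),
          (∃ j < l, G.Miss c (y j) a) → ∀ i < l, ¬ Lv G l y c a i := fun c' H' =>
        (hP hG hdeg hPG hl hodd H').1
      have hex : ∀ c : E → Option (Fin (Δ + T)), G.State l y f α β c →
          ∀ i < l, (G.ms c α β (y i)).Nonempty := by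
        intro c' H' i hi
        have := H'.card_ms hl hdeg hi
        rw [← Finset.card_pos]
        omega
      have hb := H.bound hl hodd hG hdeg (by omega)
      rw [Nat.add_sub_cancel_left] at hb
      have := Fintype.ofFinite E
      let R : Finset E := Finset.univ.filter (fun e => RE G l y e)
      have hR : ∀ e, e ∈ R ↔ RE G l y e := fun e => by simp [R]
      have h1 := ring_count hl H (hP hG hdeg hPG hl hodd H).2
        (fun a h2 h3 => hINN hl hodd hG hcl hex H a h2 h3) R hR
      refine ⟨l, y, R, hl, hodd, H.inj, fun e he => (hR e).1 he, ?_, ?_, hb⟩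
      · intro i hi
        exact ⟨f i, (hR _).2 ⟨i, hi, H.ed i hi⟩, H.ed i hi⟩
      · obtain ⟨q, hq⟩ : ∃ q, l = 2 * q + 1 := ⟨l / 2, by omega⟩
        subst hq
        have hq2 : (2 * q + 1) / 2 = q := by omega
        rw [hq2]
        obtain ⟨K, hK⟩ : ∃ K, Δ + T = K + 2 := ⟨Δ + T - 2, by omega⟩
        rw [hK] at h1 ⊢
        simp only [Nat.add_sub_cancel] at h1
        nlinarith
    · obtain ⟨l, y, R, hl, hodd, hinj, hRE, hhit, hR1, hR2⟩ :=
        ih {e : E // e ≠ e0} (G.del e0) hcard
        (fun u => (G.del_degree e0 u).trans (hdeg u)) (hdel V E G e0 hPG) hdelc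
      refine ⟨l, y, R.map (Function.Embedding.subtype _), hl, hodd, hinj, ?_, ?_, ?_, hR2⟩
      · intro e he
        rw [Finset.mem_map] at he
        obtain ⟨e', he', rfl⟩ := he
        exact hRE e' he'
      · intro i hi
        obtain ⟨e', he', h⟩ := hhit i hi
        exact ⟨e'.1, by
          rw [Finset.mem_map]
          exact ⟨e', he', rfl⟩, h⟩
      · rw [Finset.card_map]
        exact hR1

end Pool.Agent.R52.Ring
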