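import Pool.Agent.R52.Ring
import Pool.Agent.R52.SteffenDefs
import Pool.Agent.W998.KG.Reg3
import Pool.Agent.W411.KG.TAS
import Pool.Agent.W992.KG.TRE
import Pool.Agent.W733.KG.CLS
import Pool.Agent.W592.KG.DEG
import Pool.Agent.W33.KG.EVN
import Pool.Agent.W2.KG.AND
import Pool.Agent.W384.KG.MOR

/-!
# Steffen's bound: existence of the ring subgraph
-/

set_option autoImplicit false

namespace Pool.Agent.R52.SteffenPos

open Pool.Agent.Results.MP_633d19_co.SmallDegree
open Pool.Agent.Results.MP_633d19_co.SmallDegree.MGraph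
open Pool.Agent.W998.KG
open Pool.Agent.R52.Ring
open Pool.Agent.R52.SteffenDefs

/-- The class of graphs with multiplicities at most `μ` and girth at least `g`. -/
def Cls (μ g : ℕ) (V E : Type) (G : MGraph V E) : Prop :=
  Finite E ∧ (∀ u w, u ≠ w → G.mult u w ≤ μ) ∧ (∀ l, 3 ≤ l → G.HasCycle l → g ≤ l)

theorem cls_del {μ g : ℕ} (V E : Type) (G : MGraph V E) (e0 : E) (h : Cls μ g V E G) :
    Cls μ g V {e : E // e ≠ e0} (G.del e0) := by
  obtain ⟨hE, h1, h2⟩ := h
  refine ⟨inferInstance, ?_, ?_⟩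
  · intro u w huw
    refine le_trans ?_ (h1 u w huw)
    unfold mult
    apply Nat.card_le_card_of_injective
      (fun x : {e : {e : E // e ≠ e0} // (G.del e0).ends e = s(u, w)} =>
        (⟨x.1.1, x.2⟩ : {e : E // G.ends e = s(u, w)}))
    intro x y hxy
    have := congrArg Subtype.val hxy
    exact Subtype.ext (Subtype.ext this)
  · intro l h3 ⟨v, h4, h5⟩
    refine h2 l h3 ⟨v, h4, fun i hi => ?_⟩
    obtain ⟨e, he⟩ := h5 i hi
    exact ⟨e.1, he⟩

theorem ring_edges_le {V E : Type} [Finite E] {G : MGraph V E} {μ l : ℕ} {y : ℕ → V}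
    (hmul : ∀ u w, u ≠ w → G.mult u w ≤ μ) (hl : 3 ≤ l)
    (hinj : ∀ i < l, ∀ j < l, y i = y j → i = j) (S : Finset E) (hS : ∀ e ∈ S, RE G l y e) :
    S.card ≤ μ * l := by
  classical
  have : Fintype E := Fintype.ofFinite E
  have h1 : S ⊆ (Finset.range l).biUnion
      (fun i => Finset.univ.filter (fun e : E => G.ends e = s(y i, y (nx l i)))) := by
    intro e he
    obtain ⟨i, hi, h⟩ := hS e he
    rw [Finset.mem_biUnion]
    exact ⟨i, Finset.mem_range.2 hi, Finset.mem_filter.2 ⟨Finset.mem_univ _, h⟩⟩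
  refine (Finset.card_le_card h1).trans (Finset.card_biUnion_le.trans ?_)
  have h2 : ∀ i ∈ Finset.range l,
      (Finset.univ.filter (fun e : E => G.ends e = s(y i, y (nx l i)))).card ≤ μ := by
    intro i hi
    rw [Finset.mem_range] at hi
    have h3 : y i ≠ y (nx l i) := by
      intro h
      have := hinj _ hi _ (nx_lt hi) h
      unfold nx at this
      split_ifs at this <;> omega
    have h4 := hmul _ _ h3
    unfold mult at h4
    rwa [Nat.card_eq_fintype_card, Fintype.card_subtype] at h4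
  refine (Finset.sum_le_sum h2).trans ?_
  rw [Finset.sum_const, Finset.card_range, smul_eq_mul, Nat.mul_comm]

/-- The region needed here. -/
theorem closedReg_all {Δ T μ p : ℕ} (hp : 2 ≤ p) (hT : 1 ≤ T) (hμ : μ ≤ (p + 1) * T) :
    ClosedReg Δ T μ (2 * p + 1) := by
  have hTRE : PartTRE := Pool.Agent.W992.KG.TRE.main Pool.Agent.W411.KG.main
  rcases Nat.lt_or_ge p 4 with h4 | h4
  · apply @closedReg_three @hTRE Pool.Agent.W733.KG.CLS.main
      Pool.Agent.W592.KG.DEG.main Pool.Agent.W33.KG.EVN.main Pool.Agent.W2.KG.main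
      Pool.Agent.W384.KG.MOR.main Δ T μ (2 * p + 1)
    refine Or.inr ⟨by omega, by omega, hT, ?_⟩
    rw [show (2 * p + 1) / 2 = p by omega]
    exact hμ
  · apply closedReg_cond hT (by omega)
    left
    obtain ⟨p', rfl⟩ : ∃ p', p = p' + 4 := ⟨p - 4, by omega⟩
    have e1 : 2 * (2 * (p' + 4) + 1) - 3 = 4 * p' + 15 := by omega
    rw [e1]
    nlinarith [Nat.zero_le (p' * T)]

/-- Existence of the ring subgraph. -/
theorem ring_exists {V E : Type} [Finite V] [Finite E] (G : MGraph V E) {Δ T μ p : ℕ}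
    (hp : 2 ≤ p) (hT : 1 ≤ T) (hμ : μ ≤ (p + 1) * T)
    (hdeg : ∀ u, G.degree u ≤ Δ) (hmul : ∀ u w, u ≠ w → G.mult u w ≤ μ)
    (hgir : ∀ l, 3 ≤ l → G.HasCycle l → 2 * p + 1 ≤ l)
    (hG : ¬ G.Colorable (Δ + T)) (hG1 : G.Colorable (Δ + T + 1)) :
    ∃ (W F : Type) (R : MGraph W F), IsRing R (2 * p + 1) ∧ IsSub R G ∧
      R.HasChromaticIndex (Δ + T + 1) := by
  classical
  have hreg : ClosedReg Δ T μ (2 * p + 1) := closedReg_all hp hT hμ
  have hcl : Closed Δ T (Cls μ (2 * p + 1)) := by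
    intro V E _ _ G h1 h2 h3 l y f α β c hl hodd H
    exact hreg h1 h2 h3.2.1 h3.2.2 hl hodd H
  obtain ⟨l, y, S, hl, hodd, hinj, hS, hhit, hcard, hb⟩ :=
    core hT (Cls μ (2 * p + 1)) (fun V E G e0 h => cls_del V E G e0 h) hcl _ E G rfl hdeg
      ⟨inferInstance, hmul, hgir⟩ hG
  have hle := ring_edges_le hmul hl hinj S hS
  have hcyc : G.HasCycle l := ⟨y, hinj, fun i hi => by
    obtain ⟨e, _, he⟩ := hhit i hi
    exact ⟨e, by rw [mod_eq_nx hi, he]⟩⟩
  have hlg := hgir l hl hcyc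
  obtain ⟨q, hq⟩ : ∃ q, l = 2 * q + 1 := ⟨l / 2, by omega⟩
  have hqp : q = p := by
    apply le_antisymm _ (by omega)
    subst hq
    rw [show (2 * q + 1) / 2 = q by omega] at hcard
    by_contra hcon
    push Not at hcon
    have h1 : (2 * q * T + 2) ≤ Δ := by
      have : (2 * q + 1) * T = 2 * q * T + T := by ring
      omega
    have h2 : (2 * q * T + 2 + T) * q ≤ (Δ + T) * q := Nat.mul_le_mul_right _ (by omega)
    have h3 : (2 * q * T + 2 + T) * q + 1 ≤ μ * (2 * q + 1) := by omega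
    have h4 : (2 * q + 1) * (T * q + 1) ≤ (2 * q + 1) * μ := by
      calc (2 * q + 1) * (T * q + 1) = (2 * q * T + 2 + T) * q + 1 := by ring
        _ ≤ μ * (2 * q + 1) := h3
        _ = (2 * q + 1) * μ := Nat.mul_comm _ _
    have h5 : T * q + 1 ≤ μ := Nat.le_of_mul_le_mul_left h4 (by omega)
    have h6 : (p + 1) * T ≤ q * T := Nat.mul_le_mul_right _ hcon
    have h7 : T * q = q * T := Nat.mul_comm _ _
    omega
  subst hq
  subst hqp
  obtain ⟨R, hR1, hR2⟩ := exists_ring G hl y hinj S hS hhit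
  refine ⟨_, _, R, hR1, hR2, hR2.colorable hG1, ?_⟩
  intro k hk
  by_contra hcon
  have h1 : R.Colorable (Δ + T) := Colorable.mono hk (by omega)
  have h2 := R.overfull h1 (p := q) (by simp)
  rw [show (2 * q + 1) / 2 = q by omega] at hcard
  rw [Nat.card_eq_fintype_card, Fintype.card_coe] at h2
  omega

end Pool.Agent.R52.SteffenPos
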